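import Pool.Agent.R904.Voi.Alt

/-!
# Alternating sums of symmetric functions of pairs
-/

namespace Pool.Agent.H802Voi

open Equiv Pool.Agent.R904.Voi

variable {M : Type*} [AddCommGroup M] [Module ℚ M] {n : ℕ}

/-- The permutation `(j, b) ↦ (σ j, ε_j b)`. -/
def shear (σ : Perm (Fin n)) (ε : Fin n → Perm Bool) : Perm (Fin n × Bool) :=
  Equiv.prodShear σ ε

lemma shear_apply (σ : Perm (Fin n)) (ε : Fin n → Perm Bool) (j : Fin n) (b : Bool) :
    shear σ ε (j, b) = (σ j, ε j b) := rfl

lemma sign_shear (σ : Perm (Fin n)) (ε : Fin n → Perm Bool) :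
    Perm.sign (shear σ ε) = ∏ j, Perm.sign (ε j) := by
  have h1 : shear σ ε = prodCongrLeft (fun _ : Bool => σ) * prodCongrRight ε := by
    ext ⟨j, b⟩ <;> rfl
  rw [h1, Perm.sign_mul, Perm.sign_prodCongrLeft, Perm.sign_prodCongrRight]
  simp

/-- The `2 × 2` minors. -/
def minor {Γ : Type*} (Y : Γ → Fin n × Bool → ℚ) (γ γ' : Γ) (i : Fin n) : ℚ :=
  ∑ e : Perm Bool, ((Perm.sign e : ℤ) : ℚ) * (Y γ (i, e false) * Y γ' (i, e true))

lemma sum_permBool (f : Perm Bool → ℚ) : ∑ e : Perm Bool, f e = f 1 + f (swap false true) := by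
  have h1 : (Finset.univ : Finset (Perm Bool)) = {1, swap false true} := by decide
  have h2 : (1 : Perm Bool) ≠ swap false true := by decide
  rw [h1, Finset.sum_pair h2]

lemma minor_eq {Γ : Type*} (Y : Γ → Fin n × Bool → ℚ) (γ γ' : Γ) (i : Fin n) :
    minor Y γ γ' i = Y γ (i, false) * Y γ' (i, true) - Y γ (i, true) * Y γ' (i, false) := by
  have h2 : (false : Bool) ≠ true := by decide
  rw [minor, sum_permBool, Perm.sign_swap h2]
  simp
  ring

lemma det_minor {a : ℕ} (ha : a.choose 2 < n) (c : Fin n → Bool → Fin a)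
    (Y : Fin a → Fin n × Bool → ℚ) :
    (Matrix.of fun i j : Fin n => minor Y (c j false) (c j true) i).det = 0 := by
  classical
  rw [← Matrix.exists_mulVec_eq_zero_iff]
  by_cases h : ∃ j, c j false = c j true
  · obtain ⟨j, hj⟩ := h
    refine ⟨Pi.single j 1, fun h0 => ?_, ?_⟩
    · have := congrFun h0 j
      simp at this
    · funext i
      rw [Matrix.mulVec_single_one]
      simp only [Matrix.col_apply, Matrix.of_apply, Pi.zero_apply]
      rw [minor_eq, hj]
      ring
  · push Not at h
    let s : Fin n → {s : Sym2 (Fin a) // ¬ s.IsDiag} := fun j =>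
      ⟨s(c j false, c j true), fun hd => h j hd⟩
    have hcard : Fintype.card {s : Sym2 (Fin a) // ¬ s.IsDiag} < Fintype.card (Fin n) := by
      rw [Sym2.card_subtype_not_diag, Fintype.card_fin, Fintype.card_fin]
      exact ha
    obtain ⟨j, j', hne, heq⟩ := Fintype.exists_ne_map_eq_of_card_lt s hcard
    have h1 : s(c j false, c j true) = s(c j' false, c j' true) := congrArg Subtype.val heq
    rw [Sym2.eq_iff] at h1
    rcases h1 with ⟨h2, h3⟩ | ⟨h2, h3⟩
    · refine ⟨Pi.single j 1 - Pi.single j' 1, fun h0 => ?_, ?_⟩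
      · have := congrFun h0 j
        simp [hne] at this
      · funext i
        rw [Matrix.mulVec_sub, Matrix.mulVec_single_one, Matrix.mulVec_single_one]
        simp only [Pi.sub_apply, Matrix.col_apply, Matrix.of_apply, Pi.zero_apply]
        rw [h2, h3, sub_self]
    · refine ⟨Pi.single j 1 + Pi.single j' 1, fun h0 => ?_, ?_⟩
      · have := congrFun h0 j
        simp [hne] at this
      · funext i
        rw [Matrix.mulVec_add, Matrix.mulVec_single_one, Matrix.mulVec_single_one]
        simp only [Pi.add_apply, Matrix.col_apply, Matrix.of_apply, Pi.zero_apply]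
        rw [minor_eq, minor_eq, h2, h3]
        ring

/-- If the symmetrizations of `z` over more than `a` positions are zero, `z` is invariant under the
exchanges of the two elements of a pair, and `n > a (a - 1) / 2`, then the alternating sum of `z`
over the permutations of the pairs is zero. -/
theorem alt_sym {a : ℕ} (ha : a.choose 2 < n) (z : Perm (Fin n × Bool) → M)
    (h1 : ∀ A : Finset (Fin n × Bool), A.card = a + 1 → ∀ σ : Perm (Fin n × Bool),
      ∑ ρ : Perm A, z (σ * Perm.ofSubtype ρ) = 0)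
    (h2 : ∀ (σ : Perm (Fin n)) (ε : Fin n → Perm Bool), z (shear σ ε) = z (shear σ 1)) :
    ∑ σ : Perm (Fin n), ((Perm.sign σ : ℤ) : ℚ) • z (shear σ 1) = 0 := by
  classical
  let wt : Perm (Fin n) → (Fin n → Perm Bool) → ℚ := fun σ ε =>
    ((Perm.sign σ : ℤ) : ℚ) * ∏ j, ((Perm.sign (ε j) : ℤ) : ℚ)
  let F : Perm (Fin n × Bool) → ℚ := fun π =>
    ∑ σ : Perm (Fin n), ∑ ε : Fin n → Perm Bool, if shear σ ε = π then wt σ ε else 0
  have key := alt_sum (κ := Fin n × Bool) (Q := Unit) (Γ := Fin a) (M := M)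
    (fun _ => ()) (fun _ => ()) F (fun _ _ _ => rfl) ?_ z ?_
  · have e1 : ∑ π : Perm (Fin n × Bool), (((Perm.sign π : ℤ) : ℚ) * F π) • z π =
        ∑ σ : Perm (Fin n), ∑ ε : Fin n → Perm Bool, ((Perm.sign σ : ℤ) : ℚ) • z (shear σ 1) := by
      have e2 : ∀ π : Perm (Fin n × Bool), (((Perm.sign π : ℤ) : ℚ) * F π) • z π =
          ∑ σ : Perm (Fin n), ∑ ε : Fin n → Perm Bool,
            if shear σ ε = π then ((Perm.sign σ : ℤ) : ℚ) • z (shear σ 1) else 0 := by
        intro π
        simp only [F]
        rw [Finset.mul_sum, Finset.sum_smul]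
        refine Finset.sum_congr rfl fun σ _ => ?_
        rw [Finset.mul_sum, Finset.sum_smul]
        refine Finset.sum_congr rfl fun ε _ => ?_
        split_ifs with h
        · subst h
          rw [h2 σ ε]
          congr 1
          simp only [wt]
          rw [sign_shear]
          have e3 : ((((∏ j, Perm.sign (ε j) : ℤˣ)) : ℤ) : ℚ) *
              ∏ j, ((Perm.sign (ε j) : ℤ) : ℚ) = 1 := by
            have e4 : (∏ j, ((Perm.sign (ε j) : ℤ) : ℚ)) =
                ((((∏ j, Perm.sign (ε j) : ℤˣ)) : ℤ) : ℚ) := by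
              rw [Units.coe_prod]
              push_cast
              rfl
            rw [e4, ← Int.cast_mul, Int.units_coe_mul_self, Int.cast_one]
          linear_combination ((Perm.sign σ : ℤ) : ℚ) * e3
        · rw [mul_zero, zero_smul]
      rw [Finset.sum_congr rfl fun π _ => e2 π, Finset.sum_comm]
      refine Finset.sum_congr rfl fun σ _ => ?_
      rw [Finset.sum_comm]
      refine Finset.sum_congr rfl fun ε _ => ?_
      rw [Finset.sum_ite_eq]
      simp
    rw [e1] at key
    have e5 : ∑ σ : Perm (Fin n), ∑ _ε : Fin n → Perm Bool,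
        ((Perm.sign σ : ℤ) : ℚ) • z (shear σ 1) = (Fintype.card (Fin n → Perm Bool) : ℚ) •
          ∑ σ : Perm (Fin n), ((Perm.sign σ : ℤ) : ℚ) • z (shear σ 1) := by
      rw [Finset.smul_sum]
      refine Finset.sum_congr rfl fun σ _ => ?_
      rw [Finset.sum_const, Finset.card_univ, Nat.cast_smul_eq_nsmul]
    rw [e5] at key
    exact (smul_eq_zero.1 key).resolve_left (Nat.cast_ne_zero.2 Fintype.card_ne_zero)
  · intro c _ Y
    rw [← det_minor ha (fun j b => c (j, b)) Y, Matrix.det_apply]
    have e2 : ∀ π : Perm (Fin n × Bool), F π * ∏ k, Y (c k) (π k) =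
        ∑ σ : Perm (Fin n), ∑ ε : Fin n → Perm Bool, if shear σ ε = π then wt σ ε *
          ∏ k, Y (c k) (shear σ ε k) else 0 := by
      intro π
      simp only [F]
      rw [Finset.sum_mul]
      refine Finset.sum_congr rfl fun σ _ => ?_
      rw [Finset.sum_mul]
      refine Finset.sum_congr rfl fun ε _ => ?_
      split_ifs with h
      · subst h
        rfl
      · rw [zero_mul]
    rw [Finset.sum_congr rfl fun π _ => e2 π, Finset.sum_comm]
    refine Finset.sum_congr rfl fun σ _ => ?_
    rw [Finset.sum_comm, Units.smul_def, zsmul_eq_mul]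
    have e3 : ∀ ε : Fin n → Perm Bool, (∑ π : Perm (Fin n × Bool), if shear σ ε = π then wt σ ε *
        ∏ k, Y (c k) (shear σ ε k) else 0) = ((Perm.sign σ : ℤ) : ℚ) *
        ∏ j, (((Perm.sign (ε j) : ℤ) : ℚ) * (Y (c (j, false)) (σ j, ε j false) *
          Y (c (j, true)) (σ j, ε j true))) := by
      intro ε
      rw [Finset.sum_ite_eq, if_pos (Finset.mem_univ _), Fintype.prod_prod_type]
      simp only [wt, Fintype.prod_bool, shear_apply]
      rw [mul_assoc, ← Finset.prod_mul_distrib]
      congr 1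
      refine Finset.prod_congr rfl fun j _ => ?_
      ring
    rw [Finset.sum_congr rfl fun ε _ => e3 ε, ← Finset.mul_sum]
    congr 1
    have e4 := (Finset.prod_univ_sum (fun _ : Fin n => (Finset.univ : Finset (Perm Bool)))
      (fun j e => ((Perm.sign e : ℤ) : ℚ) * (Y (c (j, false)) (σ j, e false) *
          Y (c (j, true)) (σ j, e true)))).symm
    rw [Fintype.piFinset_univ] at e4
    exact e4
  · intro q A hA _ π _
    refine h1 A ?_ π
    rw [hA]
    congr 1
    have h3 : Function.Bijective (fun γ : Fin a => (⟨γ, rfl⟩ : {γ : Fin a // () = q})) := by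
      constructor
      · intro i j h
        exact congrArg Subtype.val h
      · rintro ⟨γ, _⟩
        exact ⟨γ, rfl⟩
    rw [← Fintype.card_of_bijective h3, Fintype.card_fin]

end Pool.Agent.H802Voi
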