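import Pool.Agent.H802Voi.Defs
import Pool.Agent.TH133.Dual

/-!
# Chow theories with coefficients in a field: basic facts
-/

open CategoryTheory AlgebraicGeometry

universe u v w

namespace Pool.Agent.H802Voi

open Pool.Agent.H914 Pool.Agent.H914.VarClass Pool.Agent.H914.VarClass.Obj Pool.Agent.W492.BB
  Pool.Agent.W550.Corr Pool.Agent.TH133

variable {k : Type u} [Field k] {𝒱 : VarClass k} {F : Type w} [Field F]

instance {C : TheoryData.{u, v, w} 𝒱 F} [hC : IsChowOver C] : IsTheory C 1 := hC.isTheory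

section degrees

variable (C : TheoryData.{u, v, w} 𝒱 F) [hC : IsChowOver C] {X Y Z W : 𝒱.Obj}

include hC

lemma ch_comm {X : 𝒱.Obj} (a b : C.A X) : a * b = b * a := hC.mul_comm a b

lemma comp_mem {e e' : ℤ} {Γ : C.A (X.prod Y)} {Δ : C.A (Y.prod Z)}
    (hΓ : Γ ∈ C.gr (X.prod Y) (X.dim + e)) (hΔ : Δ ∈ C.gr (Y.prod Z) (Y.dim + e')) :
    C.comp Γ Δ ∈ C.gr (X.prod Z) (X.dim + (e + e')) := by
  have h := C.push_mem (t13 X Y Z) (C.mul_mem (C.pull_mem (t23 X Y Z) hΔ)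
    (C.pull_mem (fst (X.prod Y) Z) hΓ))
  have e1 : (Y.dim : ℤ) + e' + ((X.dim : ℤ) + e) +
      1 * (((X.prod Z).dim : ℤ) - (((X.prod Y).prod Z).dim : ℤ)) = X.dim + (e + e') := by
    rw [dim_prod, dim_prod, dim_prod]; push_cast; ring
  rwa [e1] at h

lemma tp_mem {e : ℤ} {Γ : C.A (X.prod Y)} (hΓ : Γ ∈ C.gr (X.prod Y) e) :
    tp C Γ ∈ C.gr (Y.prod X) e := C.pull_mem _ hΓ

end degrees

section chow

variable {C : TheoryData.{u, v, w} 𝒱 F} [hC : IsChowOver C] {X Y Z W V : 𝒱.Obj}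

/-- The rings `A(W)` are commutative. -/
noncomputable instance chCommRing (W : 𝒱.Obj) : CommRing (C.A W) :=
  { (inferInstance : Ring (C.A W)) with mul_comm := ch_comm C }

/-- The rings `A(W)` are `ℚ`-algebras. -/
@[instance_reducible] noncomputable def ratAlg [CharZero F] (C : TheoryData.{u, v, w} 𝒱 F) [IsChowOver C] (W : 𝒱.Obj) :
    Algebra ℚ (C.A W) :=
  ((algebraMap F (C.A W)).comp (algebraMap ℚ F)).toAlgebra

include hC

/-- Base change along arbitrary morphisms for the projections. -/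
lemma base_pull (f : W ⟶ Y) (w : C.A (Y.prod Z)) :
    C.pull f (C.push (fst Y Z) w) = C.push (fst W Z) (C.pull (prodMap f (𝟙 Z)) w) := by
  have h0 : ∀ z : C.A Y, C.pull f z = C.push (fst W Y) (C.push (Obj.lift (𝟙 W) f) 1 *
      C.pull (snd W Y) z) := by
    intro z
    rw [← C.proj_right, ← C.push_comp, ← C.pull_comp, lift_fst, lift_snd, one_mul, C.push_id]
  have e1 : prodMap (𝟙 W) (fst Y Z) = aJ W Y Z ≫ fst (W.prod Y) Z := by
    apply prod_ext <;> simp [aJ, comp_lift]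
  have h1 : C.pull (prodMap (𝟙 W) (fst Y Z)) (C.push (Obj.lift (𝟙 W) f) 1) =
      C.push (prodMap (Obj.lift (𝟙 W) f) (𝟙 Z) ≫ aI W Y Z) 1 := by
    rw [e1, C.pull_comp, C.base_fst, map_one, pull_iso C (aJ W Y Z) (aI W Y Z) aJ_aI aI_aJ,
      ← C.push_comp]
  have e2 : prodMap (𝟙 W) (fst Y Z) ≫ fst W Y = fst W (Y.prod Z) := by simp
  have e3 : (prodMap (Obj.lift (𝟙 W) f) (𝟙 Z) ≫ aI W Y Z) ≫ fst W (Y.prod Z) = fst W Z := by
    simp [aI]
  have e4 : (prodMap (Obj.lift (𝟙 W) f) (𝟙 Z) ≫ aI W Y Z) ≫ snd W (Y.prod Z) =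
      prodMap f (𝟙 Z) := by
    apply prod_ext <;> simp [aI]
  rw [h0, C.base_snd, ← C.proj_left, ← C.push_comp, e2, h1, ← C.proj_right, ← C.push_comp,
    ← C.pull_comp, e3, e4, one_mul]

end chow

end Pool.Agent.H802Voi
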