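import Pool.Agent.TH133.Defs
import Mathlib.GroupTheory.Perm.Sign
import Mathlib.LinearAlgebra.Matrix.Trace

/-!
# Voisin's conjecture for quotients of products of curves: definitions

The Chow groups have coefficients in a field `F` of characteristic zero (for example `ℚ` or `ℝ`).
-/

open CategoryTheory AlgebraicGeometry

universe u v w

namespace Pool.Agent.H802Voi

open Pool.Agent.H914 Pool.Agent.H914.VarClass Pool.Agent.H914.VarClass.Obj Pool.Agent.W492.BB
  Pool.Agent.W550.Corr Pool.Agent.TH133

variable {k : Type u} [Field k] {𝒱 : VarClass k} {F : Type w} [Field F]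

/-- The formal properties of the Chow groups, with coefficients in the field `F`, of the smooth
projective varieties of the class `𝒱`: `A^i(X)` is the group of cycles of codimension `i` on `X`
modulo rational equivalence, tensored with `F`, with the intersection product, pull-backs and
push-forwards (`IsTheory`: graded rings, functoriality, projection formula, base change along
projections of products); push-forwards along isomorphisms preserve fundamental classes (`HasIso`);
the product is commutative; and `A^i(X) = 0` for `i > dim X`. -/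
class IsChowOver (C : TheoryData.{u, v, w} 𝒱 F) : Prop extends HasIso C where
  isTheory : IsTheory C 1
  mul_comm : ∀ {X : 𝒱.Obj} (a b : C.A X), C.mul a b = C.mul b a
  gr_top : ∀ (X : 𝒱.Obj) (i : ℤ) (x : C.A X), C.Deg i x → (X.dim : ℤ) < i → x = 0

section defs

variable (C : TheoryData.{u, v, w} 𝒱 F)

/-- The zero-cycle `x` on `X` has degree one: for all `Y` the push-forward of `x × Y` to `Y` is the
fundamental class of `Y`. -/
def DegreeOne {X : 𝒱.Obj} (x : C.A X) : Prop :=
  ∀ Y : 𝒱.Obj, C.down (snd X Y) (C.up (fst X Y) x) = 1 ∧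
    C.down (fst Y X) (C.up (snd Y X) x) = 1

/-- The zero-cycle `α ∈ CH_0(S)` lies in the Albanese kernel: it is mapped to zero by all
correspondences `W ∈ CH^1(S × Y)`, `Y` any variety (these map zero-cycles on `S` to divisor classes
on `Y`). -/
structure InAlbaneseKernel {S : 𝒱.Obj} (α : C.A S) : Prop where
  deg : C.Deg S.dim α
  act_eq_zero : ∀ (Y : 𝒱.Obj) (W : C.A (S.prod Y)), C.Deg 1 W → C.act W α = 0

/-- The class `∑_σ sign(σ) s_1^*(α_σ(1)) ⋯ s_n^*(α_σ(n))` on `W`, where `s_i : W ⟶ S`. For
`W = S^n` and the projections `s_i` this is the alternating sum of the exterior products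
`α_σ(1) × ⋯ × α_σ(n)`. -/
noncomputable def alternatingSum {S W : 𝒱.Obj} {n : ℕ} (α : Fin n → C.A S)
    (s : Fin n → (W ⟶ S)) : C.A W :=
  ∑ σ : Equiv.Perm (Fin n), (Equiv.Perm.sign σ : ℤ) •
    (List.ofFn fun i => C.up (s i) (α (σ i))).prod

/-- The class `∑_σ p(x_1, y_σ(1)) ⋯ p(x_n, y_σ(n))` on `W`, where `p(x, y)` is the pull-back of the
self-correspondence `p` of `X` under `(x, y) : W ⟶ X × X`. For `W = X^n × X^n` and the `2n`
projections this is `n!` times the correspondence defining the symmetric power `Sym^n (X, p)` of the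
motive `(X, p)`. -/
noncomputable def symmetricPower {X W : 𝒱.Obj} {n : ℕ} (p : C.A (X.prod X))
    (x y : Fin n → (W ⟶ X)) : C.A W :=
  ∑ σ : Equiv.Perm (Fin n), (List.ofFn fun i => C.up (Obj.lift (x i) (y (σ i))) p).prod

/-- For a zero-cycle class `e` on `X`: the correspondence `[Δ] - e × X - X × e`. If `X` is a curve
and `e` has degree one this is the projector defining the motive `h^1(X)`. -/
noncomputable def midProj {X : 𝒱.Obj} (e : C.A X) : C.A (X.prod X) :=
  dg C X - C.up (fst X X) e - C.up (snd X X) e

/-- The correspondence `∑_g c(g) (id × g)^* π`, where `π = [Δ] - e × X - X × e`: the action of the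
element `∑_g c(g) g` of the group algebra on `h^1(X)`. -/
noncomputable def groupCorr {G : Type} [Fintype G] {X : 𝒱.Obj} (a : G → (X ⟶ X)) (e : C.A X)
    (c : G → F) : C.A (X.prod X) :=
  ∑ g, c g • C.up (prodMap (𝟙 X) (a g)) (midProj C e)

end defs

section group

variable {G : Type} [Group G] [Fintype G] {Φ : Type}

/-- `ρ` is a family of orthogonal matrix representations of the finite group `G` over the field `F`
whose matrix coefficients satisfy the orthogonality relations of Schur; in other words, the `ρ V`
are absolutely irreducible and pairwise non-isomorphic. (Over `F = ℝ` these are families of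
irreducible complex representations which are defined over `ℝ`.) -/
structure IsOrthogonalFamily (d : Φ → ℕ) (ρ : (V : Φ) → G → Matrix (Fin (d V)) (Fin (d V)) F) :
    Prop where
  pos : ∀ V, 0 < d V
  map_mul : ∀ V g h, ρ V (g * h) = ρ V g * ρ V h
  map_inv : ∀ V g, ρ V g⁻¹ = (ρ V g).transpose
  schur_ne : ∀ V V', V ≠ V' → ∀ i j i' j', ∑ g, ρ V g i j * ρ V' g i' j' = 0
  schur_self : ∀ V i j i' j', ∑ g, ρ V g i j * ρ V g i' j' =
    if i = i' ∧ j = j' then (Fintype.card G : F) / d V else 0

/-- The element `(dim V / |G|) ∑_g ρ_V(g)_{11} g` of the group algebra: an idempotent cutting out of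
each representation `M` of `G` the space `Hom_G(V, M)`. -/
noncomputable def coeff {d : Φ → ℕ} (hd : ∀ V, 0 < d V)
    (ρ : (V : Φ) → G → Matrix (Fin (d V)) (Fin (d V)) F) (V : Φ) (g : G) : F :=
  (d V : F) / Fintype.card G * ρ V g ⟨0, hd V⟩ ⟨0, hd V⟩

/-- `X` is a curve on which the finite group `G` acts by the automorphisms `a g`; and, for an
invariant class `e` of degree one,

* for each representation `V` of the family, `γ V` is half of the rank of the part
  `h^1(X)_V = Hom_G(V, h^1(X))` of `h^1(X)` in the sense of Kimura: the symmetric power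
  `Sym^(2 γ(V) + 1) h^1(X)_V` is zero (all curves have this property, by the theorem of Kimura, if
  `2 γ V` is the multiplicity of `V` in `H^1(X)`, that is if `γ V` is the multiplicity of `V` in
  `H^0(X, K_X)`);
* the element `∑_g z(g) g` of the group algebra acts as zero on `h^1(X)`. -/
structure IsCurveWithAction (C : TheoryData.{u, v, w} 𝒱 F) (X : 𝒱.Obj) (a : G → (X ⟶ X))
    {d : Φ → ℕ} (hd : ∀ V, 0 < d V) (ρ : (V : Φ) → G → Matrix (Fin (d V)) (Fin (d V)) F)
    (γ : Φ → ℕ) (z : G → F) : Prop where
  dim_eq : X.dim = 1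
  act_one : a 1 = 𝟙 X
  act_mul : ∀ g h, a (g * h) = a h ≫ a g
  kimura : ∃ e : C.A X, C.Deg 1 e ∧ DegreeOne C e ∧ (∀ g, C.up (a g) e = e) ∧
    (∀ (V : Φ) (W : 𝒱.Obj) (x y : Fin (2 * γ V + 1) → (W ⟶ X)),
      symmetricPower C (groupCorr C a e (coeff hd ρ V)) x y = 0) ∧
    groupCorr C a e z = 0

/-- Every irreducible representation of `G` which occurs in `H^1(X)` and in `H^1(Y)` belongs to the
family `ρ`, in the following form: the element `1 - ∑_V (dim V / |G|) ∑_g χ_V(g) g` of the group
algebra (the projector to the other representations) is the sum of two elements `z` and `z'`, where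
`z` is to act as zero on `h^1(X)` and `z'` on `h^1(Y)`. If `ρ` consists of all irreducible
representations of `G` then this holds with `z = z' = 0`. -/
def Covers [DecidableEq G] [Fintype Φ] (d : Φ → ℕ)
    (ρ : (V : Φ) → G → Matrix (Fin (d V)) (Fin (d V)) F) (z z' : G → F) : Prop :=
  ∀ g, z g + z' g + ∑ V, (d V : F) / Fintype.card G * (ρ V g).trace = if g = 1 then 1 else 0

/-- The surface `S` is dominated by the quotient `(X × Y) / G` by the diagonal action of the group
`G`: there is a correspondence `b ∈ CH^2((X × Y) × S)` which is invariant under the action of `G` on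
`X × Y` and such that `b_* (ᵗb)_*` is the multiplication by an element `N ≠ 0` of `F` on the
Albanese kernel of `S` (for example `b` is the graph of a rational map of degree `N` from `X × Y` to
`S` which factors through `(X × Y) / G`). -/
def IsDominatedByQuotient (C : TheoryData.{u, v, w} 𝒱 F) {X Y : 𝒱.Obj}
    (a : G → (X ⟶ X)) (a' : G → (Y ⟶ Y)) (S : 𝒱.Obj) : Prop :=
  S.dim = 2 ∧ ∃ (b : C.A ((X.prod Y).prod S)) (N : F), C.Deg 2 b ∧ N ≠ 0 ∧
    (∀ g, C.up (prodMap (prodMap (a g) (a' g)) (𝟙 S)) b = b) ∧
    ∀ α : C.A S, InAlbaneseKernel C α → C.act b (C.act (tp C b) α) = N • α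

/-- The surface `S` is dominated by the quotient of `X × X` by the group generated by the diagonal
action of `G` and by the exchange of the factors (for trivial `G` this quotient is the symmetric
square of the curve `X`): there is a correspondence `b ∈ CH^2((X × X) × S)` which is invariant under
this group and such that `b_* (ᵗb)_*` is the multiplication by an element `N ≠ 0` of `F` on the
Albanese kernel of `S`. -/
def IsDominatedBySymmetricQuotient (C : TheoryData.{u, v, w} 𝒱 F) {X : 𝒱.Obj}
    (a : G → (X ⟶ X)) (S : 𝒱.Obj) : Prop :=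
  S.dim = 2 ∧ ∃ (b : C.A ((X.prod X).prod S)) (N : F), C.Deg 2 b ∧ N ≠ 0 ∧
    (∀ g, C.up (prodMap (prodMap (a g) (a g)) (𝟙 S)) b = b) ∧
    C.up (prodMap (sw X X) (𝟙 S)) b = b ∧
    ∀ α : C.A S, InAlbaneseKernel C α → C.act b (C.act (tp C b) α) = N • α

/-- The surfaces `S` with a bound `N` generated by quotients of products of curves. -/
inductive Generated (C : TheoryData.{u, v, w} 𝒱 F) : 𝒱.Obj → ℕ → Prop
  /-- The surface `S` is dominated by `(X × Y) / G`, where all irreducible representations of the
  finite group `G` which occur in both `H^1(X)` and `H^1(Y)` are real; the bound is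
  `∑_V γ(V) γ'(V)`, which is the geometric genus of `(X × Y) / G`. -/
  | quotient {G : Type} [Group G] [Fintype G] [DecidableEq G] {Φ : Type} [Fintype Φ] {d : Φ → ℕ}
      {ρ : (V : Φ) → G → Matrix (Fin (d V)) (Fin (d V)) F} (hρ : IsOrthogonalFamily d ρ)
      {z z' : G → F} (hz : Covers d ρ z z') {X Y S : 𝒱.Obj} {a : G → (X ⟶ X)} {a' : G → (Y ⟶ Y)}
      {γ γ' : Φ → ℕ} (hX : IsCurveWithAction C X a hρ.pos ρ γ z)
      (hY : IsCurveWithAction C Y a' hρ.pos ρ γ' z') (hS : IsDominatedByQuotient C a a' S) :
      Generated C S (∑ V, γ V * γ' V)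
  /-- The surface `S` is dominated by the quotient of `X × X` by `G` and the exchange of the
  factors, where all irreducible representations of the finite group `G` which occur in `H^1(X)` are
  real; the bound is `∑_V γ(V) (γ(V) - 1) / 2`, which is the geometric genus of this quotient. -/
  | symmetric {G : Type} [Group G] [Fintype G] [DecidableEq G] {Φ : Type} [Fintype Φ] {d : Φ → ℕ}
      {ρ : (V : Φ) → G → Matrix (Fin (d V)) (Fin (d V)) F} (hρ : IsOrthogonalFamily d ρ)
      {z : G → F} (hz : Covers d ρ z 0) {X S : 𝒱.Obj} {a : G → (X ⟶ X)}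
      {γ : Φ → ℕ} (hX : IsCurveWithAction C X a hρ.pos ρ γ z)
      (hS : IsDominatedBySymmetricQuotient C a S) :
      Generated C S (∑ V, γ V * (γ V - 1) / 2)
  /-- The surface `S` is generated by finitely many surfaces `T i` with bounds `N i`: there are
  correspondences `c i ∈ CH^2(S × T i)` and `b i ∈ CH^2(T i × S)` such that `∑ (b i)_* (c i)_*` is
  the multiplication by an element `q ≠ 0` of `F` on the Albanese kernel of `S` (for example, `S`
  carries an action of a finite group and the `T i` are quotients of `S` by subgroups whose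
  transcendental cohomologies generate the one of `S`). -/
  | sum {m : ℕ} (T : Fin m → 𝒱.Obj) (N : Fin m → ℕ) (hT : ∀ i, Generated C (T i) (N i))
      (S : 𝒱.Obj) (hS : S.dim = 2) (c : (i : Fin m) → C.A (S.prod (T i)))
      (b : (i : Fin m) → C.A ((T i).prod S)) (hc : ∀ i, C.Deg 2 (c i)) (hb : ∀ i, C.Deg 2 (b i))
      (q : F) (hq : q ≠ 0)
      (h : ∀ α : C.A S, InAlbaneseKernel C α → ∑ i, C.act (b i) (C.act (c i) α) = q • α) :
      Generated C S (∑ i, N i)

end group

end Pool.Agent.H802Voi
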