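import Pool.Agent.H802Voi.Trans

/-!
# The projectors of curves with an action of a finite group
-/

open CategoryTheory AlgebraicGeometry

universe u v w

namespace Pool.Agent.H802Voi

open Pool.Agent.H914 Pool.Agent.H914.VarClass Pool.Agent.H914.VarClass.Obj Pool.Agent.W492.BB
  Pool.Agent.W550.Corr Pool.Agent.TH133

set_option linter.unusedSectionVars false

variable {k : Type u} [Field k] {𝒱 : VarClass k} {F : Type w} [Field F]

section coef

variable {G : Type} [Group G] [Fintype G] {Φ : Type} {d : Φ → ℕ}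
  {ρ : (V : Φ) → G → Matrix (Fin (d V)) (Fin (d V)) F} [CharZero F]

lemma card_ne : (Fintype.card G : F) ≠ 0 := Nat.cast_ne_zero.2 Fintype.card_ne_zero

lemma coeff_inv (h : IsOrthogonalFamily d ρ) (V : Φ) (g : G) :
    coeff h.pos ρ V g⁻¹ = coeff h.pos ρ V g := by
  rw [coeff, coeff, h.map_inv, Matrix.transpose_apply]

lemma coeff_conv_self (h : IsOrthogonalFamily d ρ) (V : Φ) (m : G) :
    ∑ g, coeff h.pos ρ V g * coeff h.pos ρ V (g⁻¹ * m) = coeff h.pos ρ V m := by
  have hd : (d V : F) ≠ 0 := Nat.cast_ne_zero.2 (h.pos V).ne'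
  have hG : (Fintype.card G : F) ≠ 0 := card_ne
  have h1 : ∀ g, coeff h.pos ρ V g * coeff h.pos ρ V (g⁻¹ * m) =
      ∑ l, ((d V : F) / Fintype.card G) ^ 2 * (ρ V m l ⟨0, h.pos V⟩ *
        (ρ V g ⟨0, h.pos V⟩ ⟨0, h.pos V⟩ * ρ V g l ⟨0, h.pos V⟩)) := by
    intro g
    rw [coeff, coeff, h.map_mul, Matrix.mul_apply, Finset.mul_sum, Finset.mul_sum]
    refine Finset.sum_congr rfl fun l _ => ?_
    rw [h.map_inv, Matrix.transpose_apply]
    ring
  rw [Finset.sum_congr rfl fun g _ => h1 g, Finset.sum_comm, Finset.sum_eq_single ⟨0, h.pos V⟩]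
  · rw [← Finset.mul_sum, ← Finset.mul_sum, h.schur_self, if_pos ⟨rfl, rfl⟩, coeff]
    field_simp
  · intro l _ hl
    rw [← Finset.mul_sum, ← Finset.mul_sum, h.schur_self, if_neg fun h2 => hl h2.1.symm, mul_zero,
      mul_zero]
  · intro h2
    exact absurd (Finset.mem_univ _) h2

lemma coeff_conv_ne (h : IsOrthogonalFamily d ρ) {V V' : Φ} (hV : V ≠ V') (m : G) :
    ∑ g, coeff h.pos ρ V g * coeff h.pos ρ V' (g⁻¹ * m) = 0 := by
  have h1 : ∀ g, coeff h.pos ρ V g * coeff h.pos ρ V' (g⁻¹ * m) =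
      ∑ l, ((d V : F) / Fintype.card G) * ((d V' : F) / Fintype.card G) *
        (ρ V' m l ⟨0, h.pos V'⟩ *
        (ρ V g ⟨0, h.pos V⟩ ⟨0, h.pos V⟩ * ρ V' g l ⟨0, h.pos V'⟩)) := by
    intro g
    rw [coeff, coeff, h.map_mul, Matrix.mul_apply, Finset.mul_sum, Finset.mul_sum]
    refine Finset.sum_congr rfl fun l _ => ?_
    rw [h.map_inv, Matrix.transpose_apply]
    ring
  rw [Finset.sum_congr rfl fun g _ => h1 g, Finset.sum_comm]
  refine Finset.sum_eq_zero fun l _ => ?_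
  rw [← Finset.mul_sum, ← Finset.mul_sum, h.schur_ne V V' hV, mul_zero, mul_zero]

/-- The sum of the coefficients over the conjugates. -/
lemma coeff_conj (h : IsOrthogonalFamily d ρ) (V : Φ) (g : G) :
    ∑ x, coeff h.pos ρ V (x⁻¹ * g * x) = (ρ V g).trace := by
  have hd : (d V : F) ≠ 0 := Nat.cast_ne_zero.2 (h.pos V).ne'
  have hG : (Fintype.card G : F) ≠ 0 := card_ne
  have h1 : ∀ x, coeff h.pos ρ V (x⁻¹ * g * x) =
      ∑ l, ∑ m, (d V : F) / Fintype.card G * (ρ V g m l *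
        (ρ V x m ⟨0, h.pos V⟩ * ρ V x l ⟨0, h.pos V⟩)) := by
    intro x
    rw [coeff, h.map_mul, h.map_mul, Matrix.mul_apply, Finset.mul_sum]
    refine Finset.sum_congr rfl fun l _ => ?_
    rw [Matrix.mul_apply, Finset.sum_mul, Finset.mul_sum]
    refine Finset.sum_congr rfl fun m _ => ?_
    rw [h.map_inv, Matrix.transpose_apply]
    ring
  rw [Finset.sum_congr rfl fun x _ => h1 x, Finset.sum_comm, Matrix.trace]
  refine Finset.sum_congr rfl fun l _ => ?_
  rw [Finset.sum_comm, Finset.sum_eq_single l]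
  · rw [← Finset.mul_sum, ← Finset.mul_sum, h.schur_self, if_pos ⟨rfl, rfl⟩, Matrix.diag_apply]
    field_simp
  · intro m _ hm
    rw [← Finset.mul_sum, ← Finset.mul_sum, h.schur_self, if_neg fun h2 => hm h2.1, mul_zero,
      mul_zero]
  · intro h2
    exact absurd (Finset.mem_univ _) h2

/-- Combinations of values of a class function. -/
lemma sum_class {M : Type*} [AddCommGroup M] [Module F M] (f : G → M)
    (hf : ∀ g x, f (x⁻¹ * g * x) = f g) (c : G → F) :
    ∑ g, c g • f g = (Fintype.card G : F)⁻¹ • ∑ g, (∑ x, c (x⁻¹ * g * x)) • f g := by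
  have hG : (Fintype.card G : F) ≠ 0 := card_ne
  have h1 : ∀ x : G, ∑ g, c g • f g = ∑ g, c (x⁻¹ * g * x) • f g := by
    intro x
    rw [← Equiv.sum_comp (MulAut.conj x⁻¹).toEquiv]
    refine Finset.sum_congr rfl fun g _ => ?_
    have h2 : (MulAut.conj x⁻¹).toEquiv g = x⁻¹ * g * x := by
      simp
    rw [h2, hf]
  have h2 : (Fintype.card G : F) • ∑ g, c g • f g = ∑ g, (∑ x, c (x⁻¹ * g * x)) • f g := by
    have h3 : (Fintype.card G : F) • ∑ g, c g • f g = ∑ _x : G, ∑ g, c g • f g := by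
      rw [Finset.sum_const, Finset.card_univ, Nat.cast_smul_eq_nsmul]
    rw [h3, Finset.sum_congr rfl fun x _ => h1 x, Finset.sum_comm]
    refine Finset.sum_congr rfl fun g _ => ?_
    rw [Finset.sum_smul]
  rw [← h2, smul_smul, inv_mul_cancel₀ hG, one_smul]

end coef

variable {C : TheoryData.{u, v, w} 𝒱 F} [hC : IsChowOver C] {X Y Z W V T S : 𝒱.Obj}

include hC

lemma smul_comp1 (q : F) (Γ : C.A (X.prod Y)) (Δ : C.A (Y.prod Z)) :
    C.comp (q • Γ) Δ = q • C.comp Γ Δ := by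
  rw [← compL_apply C Γ Δ, ← compL_apply C (q • Γ) Δ, map_smul (compL C), LinearMap.smul_apply]

lemma comp_smul1 (q : F) (Γ : C.A (X.prod Y)) (Δ : C.A (Y.prod Z)) :
    C.comp Γ (q • Δ) = q • C.comp Γ Δ := by
  rw [← compL_apply C Γ Δ, ← compL_apply C Γ (q • Δ), map_smul (compL C Γ)]

lemma comp_pull_fst (e : C.A X) (Δ : C.A (Y.prod Z)) (x : W ⟶ X) (z : W ⟶ Z) :
    vl C (C.comp (C.pull (fst X Y) e) Δ) x z = C.pull x e * C.pull z (C.act Δ 1) := by
  rw [vl_comp, vl_fst, C.pull_comp, C.proj_left, pull_act, map_one, mul_one]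

lemma comp_pull_snd (e : C.A Y) (Δ : C.A (Y.prod Z)) (x : W ⟶ X) (z : W ⟶ Z) :
    vl C (C.comp (C.pull (snd X Y) e) Δ) x z = C.pull z (C.act Δ e) := by
  rw [vl_comp, vl_snd, ch_comm C, pull_act]

lemma ext_vl {p q : C.A (X.prod Y)} (h : ∀ (W : 𝒱.Obj) (x : W ⟶ X) (y : W ⟶ Y),
    vl C p x y = vl C q x y) : p = q := by
  have := h _ (fst X Y) (snd X Y)
  rwa [vl_univ, vl_univ] at this

lemma push_one_snd (h : 0 < X.dim) : C.push (snd X Y) (1 : C.A (X.prod Y)) = 0 := by
  have h1 := C.push_mem (snd X Y) (C.one_mem (X.prod Y))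
  have h2 : (0 : ℤ) + 1 * ((Y.dim : ℤ) - ((X.prod Y).dim : ℤ)) < 0 := by
    rw [dim_prod]
    push_cast
    have : (0 : ℤ) < X.dim := by exact_mod_cast h
    linarith
  rw [C.gr_neg _ _ h2] at h1
  exact h1

lemma act_mid_one {e : C.A X} (hd : X.dim = 1) (he1 : DegreeOne C e) :
    C.act (midProj C e) 1 = 0 := by
  have h1 : C.act (C.pull (fst X X) e) 1 = 1 := by
    rw [TheoryData.act_apply, map_one, mul_one]
    exact (he1 X).1
  have h2 : C.act (C.pull (snd X X) e) 1 = 0 := by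
    rw [TheoryData.act_apply, map_one, C.proj_left, push_one_snd (by omega), mul_zero]
  rw [midProj, C.act_sub, C.act_sub, act_dg, h1, h2, sub_self, sub_zero]

lemma act_mid_e {e : C.A X} (hd : X.dim = 1) (he : C.Deg 1 e) (he1 : DegreeOne C e) :
    C.act (midProj C e) e = 0 := by
  have h0 : e * e = 0 := hC.gr_top _ (1 + 1) _ (C.mul_mem he he) (by rw [hd]; norm_num)
  have h1 : C.act (C.pull (fst X X) e) e = 0 := by
    rw [TheoryData.act_apply, ← map_mul, h0, map_zero, map_zero]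
  have h2 : C.act (C.pull (snd X X) e) e = e := by
    have h3 : C.push (snd X X) (C.pull (fst X X) e) = 1 := (he1 X).1
    rw [TheoryData.act_apply, C.proj_left, h3, mul_one]
  rw [midProj, C.act_sub, C.act_sub, act_dg, h1, h2, sub_zero, sub_self]

lemma mid_idem {e : C.A X} (hd : X.dim = 1) (he : C.Deg 1 e) (he1 : DegreeOne C e) :
    C.comp (midProj C e) (midProj C e) = midProj C e := by
  have h1 : C.comp (C.pull (fst X X) e) (midProj C e) = 0 := by
    apply ext_vl
    intro W x y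
    rw [comp_pull_fst, act_mid_one hd he1, map_zero, mul_zero, vl, map_zero]
  have h2 : C.comp (C.pull (snd X X) e) (midProj C e) = 0 := by
    apply ext_vl
    intro W x y
    rw [comp_pull_snd, act_mid_e hd he he1, map_zero, vl, map_zero]
  conv_lhs => rw [midProj]
  rw [sub_comp, sub_comp]
  change C.comp (dg C X) (midProj C e) - C.comp (C.pull (fst X X) e) (midProj C e) -
    C.comp (C.pull (snd X X) e) (midProj C e) = _
  rw [h1, h2, dg_comp, sub_zero, sub_zero]

lemma mid_symm (e : C.A X) : tp C (midProj C e) = midProj C e := by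
  apply ext_vl
  intro W x y
  rw [vl_tp]
  have h1 : vl C (dg C X) y x = vl C (dg C X) x y := by
    rw [← vl_tp (dg C X)]
    congr 1
    have h2 : tp C (dg C X) = C.push (sw X X) (C.push (Obj.lift (𝟙 X) (𝟙 X)) 1) := by
      rw [tp, pull_iso C (sw X X) (sw X X) sw_sw sw_sw]
      rfl
    rw [h2, ← C.push_comp]
    have h3 : Obj.lift (𝟙 X) (𝟙 X) ≫ sw X X = Obj.lift (𝟙 X) (𝟙 X) := by
      apply prod_ext <;> simp [sw]
    rw [h3]
    rfl
  rw [midProj, vl_sub, vl_sub, vl_sub, vl_sub, vl_fst, vl_snd, vl_fst, vl_snd, h1]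
  ring

/-- The projector acts as the identity on classes with vanishing push-forward. -/
lemma mid_fix {e : C.A X} (hd : X.dim = 1) (hd' : Y.dim = 1) (he : C.Deg 1 e)
    {β : C.A (X.prod Y)} (hβ : C.Deg 2 β) (h0 : C.push (snd X Y) β = 0) :
    C.comp (midProj C e) β = β := by
  have h1 : C.comp (C.pull (fst X X) e) β = 0 := by
    apply ext_vl
    intro W x y
    rw [comp_pull_fst, TheoryData.act_apply, map_one, mul_one, h0, map_zero, mul_zero, vl,
      map_zero]
  have h2 : C.comp (C.pull (snd X X) e) β = 0 := by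
    apply ext_vl
    intro W x y
    have h3 : β * C.pull (fst X Y) e = 0 := by
      apply hC.gr_top _ (2 + 1) _ (C.mul_mem hβ (C.pull_mem _ he))
      rw [dim_prod, hd, hd']
      norm_num
    rw [comp_pull_snd, TheoryData.act_apply, h3, map_zero, map_zero, vl, map_zero]
  rw [midProj, sub_comp, sub_comp]
  change C.comp (dg C X) β - C.comp (C.pull (fst X X) e) β - C.comp (C.pull (snd X X) e) β = _
  rw [h1, h2, dg_comp, sub_zero, sub_zero]

/-- The projector is invariant under automorphisms. -/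
lemma mid_inv {e : C.A X} {g g' : X ⟶ X} (hg : g ≫ g' = 𝟙 X) (hg' : g' ≫ g = 𝟙 X)
    (he : C.pull g e = e) (x y : W ⟶ X) :
    vl C (midProj C e) (x ≫ g) (y ≫ g) = vl C (midProj C e) x y := by
  have h0 : ∀ {u v : X ⟶ X}, u ≫ v = 𝟙 X → prodMap u u ≫ prodMap v v = 𝟙 (X.prod X) := by
    intro u v huv
    apply prod_ext
    · rw [Category.assoc, prodMap_fst, ← Category.assoc, prodMap_fst, Category.assoc, huv]
      simp
    · rw [Category.assoc, prodMap_snd, ← Category.assoc, prodMap_snd, Category.assoc, huv]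
      simp
  have h1 : C.pull (prodMap g g) (dg C X) = dg C X := by
    rw [pull_iso C _ _ (h0 hg) (h0 hg')]
    change C.push (prodMap g' g') (C.push (Obj.lift (𝟙 X) (𝟙 X)) 1) =
      C.push (Obj.lift (𝟙 X) (𝟙 X)) 1
    have h2 : Obj.lift (𝟙 X) (𝟙 X) ≫ prodMap g' g' = g' ≫ Obj.lift (𝟙 X) (𝟙 X) := by
      apply prod_ext <;> simp [comp_lift]
    have h3 : C.push g' (1 : C.A X) = 1 := by
      rw [← pull_iso C g g' hg hg', map_one]
    rw [← C.push_comp, h2, C.push_comp, h3]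
  rw [midProj, vl_sub, vl_sub, vl_sub, vl_sub, vl_fst, vl_snd, vl_fst, vl_snd, C.pull_comp,
    C.pull_comp, he, ← vl_pull, h1]

section group

variable {G : Type} [Group G] [Fintype G] {a : G → (X ⟶ X)} {e : C.A X}

omit hC [Fintype G] in
lemma act_left (h0 : a 1 = 𝟙 X) (h1 : ∀ g h, a (g * h) = a h ≫ a g) (g : G) :
    a g ≫ a g⁻¹ = 𝟙 X := by rw [← h1, inv_mul_cancel, h0]

omit hC [Fintype G] in
lemma act_right (h0 : a 1 = 𝟙 X) (h1 : ∀ g h, a (g * h) = a h ≫ a g) (g : G) :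
    a g⁻¹ ≫ a g = 𝟙 X := by rw [← h1, mul_inv_cancel, h0]

/-- The correspondences attached to the elements of the group. -/
noncomputable def gP (a : G → (X ⟶ X)) (e : C.A X) (g : G) : C.A (X.prod X) :=
  C.pull (prodMap (𝟙 X) (a g)) (midProj C e)

lemma vl_gP (g : G) (x y : W ⟶ X) :
    vl C (gP a e g) x y = vl C (midProj C e) x (y ≫ a g) := by
  rw [gP, vl_pull, Category.comp_id]

lemma vl_gP' (h0 : a 1 = 𝟙 X) (h1 : ∀ g h, a (g * h) = a h ≫ a g)
    (he : ∀ g, C.pull (a g) e = e) (g : G) (x y : W ⟶ X) :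
    vl C (gP a e g) x y = vl C (midProj C e) (x ≫ a g⁻¹) y := by
  rw [vl_gP, ← mid_inv (act_left h0 h1 g) (act_right h0 h1 g) (he g) (x ≫ a g⁻¹) y,
    Category.assoc, act_right h0 h1 g, Category.comp_id]

lemma gP_comp (hd : X.dim = 1) (hed : C.Deg 1 e) (he1 : DegreeOne C e) (h0 : a 1 = 𝟙 X)
    (h1 : ∀ g h, a (g * h) = a h ≫ a g) (he : ∀ g, C.pull (a g) e = e) (g h : G) :
    C.comp (gP a e g) (gP a e h) = gP a e (g * h) := by
  apply ext_vl
  intro W x y
  rw [vl_comp, vl_gP' h0 h1 he, vl_gP, Category.assoc, Category.assoc, ← vl_comp,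
    mid_idem hd hed he1, ← vl_gP' h0 h1 he, vl_gP, vl_gP, Category.assoc, ← h1]

lemma gP_symm (h0 : a 1 = 𝟙 X) (h1 : ∀ g h, a (g * h) = a h ≫ a g)
    (he : ∀ g, C.pull (a g) e = e) (g : G) : tp C (gP a e g) = gP a e g⁻¹ := by
  apply ext_vl
  intro W x y
  rw [vl_tp, vl_gP, vl_symm (mid_symm e), vl_gP' h0 h1 he, inv_inv]

lemma groupCorr_eq (c : G → F) : groupCorr C a e c = ∑ g, c g • gP a e g := rfl

lemma groupCorr_comp (hd : X.dim = 1) (hed : C.Deg 1 e) (he1 : DegreeOne C e) (h0 : a 1 = 𝟙 X)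
    (h1 : ∀ g h, a (g * h) = a h ≫ a g) (he : ∀ g, C.pull (a g) e = e) (c c' : G → F) :
    C.comp (groupCorr C a e c) (groupCorr C a e c') =
      groupCorr C a e (fun m => ∑ g, c g * c' (g⁻¹ * m)) := by
  rw [groupCorr_eq, groupCorr_eq, groupCorr_eq, sum_comp]
  have h3 : ∀ g : G, C.comp (c g • gP a e g) (∑ h, c' h • gP a e h) =
      ∑ m, (c g * c' (g⁻¹ * m)) • gP a e m := by
    intro g
    rw [comp_sum, ← Equiv.sum_comp (Equiv.mulLeft g⁻¹) (fun h => C.comp (c g • gP a e g)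
      (c' h • gP a e h))]
    refine Finset.sum_congr rfl fun m _ => ?_
    rw [Equiv.coe_mulLeft, smul_comp1, comp_smul1, gP_comp hd hed he1 h0 h1 he, smul_smul,
      mul_inv_cancel_left]
  rw [Finset.sum_congr rfl fun g _ => h3 g, Finset.sum_comm]
  refine Finset.sum_congr rfl fun m _ => ?_
  rw [Finset.sum_smul]

lemma groupCorr_tp (h0 : a 1 = 𝟙 X) (h1 : ∀ g h, a (g * h) = a h ≫ a g)
    (he : ∀ g, C.pull (a g) e = e) {c : G → F} (hc : ∀ g, c g⁻¹ = c g) :
    tp C (groupCorr C a e c) = groupCorr C a e c := by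
  rw [groupCorr_eq, tp_sum, ← Equiv.sum_comp (Equiv.inv G) (fun g => tp C (c g • gP a e g))]
  refine Finset.sum_congr rfl fun g _ => ?_
  rw [Equiv.inv_apply, tp_smul, gP_symm h0 h1 he, inv_inv, hc]

lemma mid_mem (hd : X.dim = 1) (hed : C.Deg 1 e) : midProj C e ∈ C.gr (X.prod X) X.dim := by
  rw [hd]
  have h1 : dg C X ∈ C.gr (X.prod X) X.dim := by
    have h2 := C.push_mem (Obj.lift (𝟙 X) (𝟙 X)) (C.one_mem X)
    have e1 : (0 : ℤ) + 1 * (((X.prod X).dim : ℤ) - (X.dim : ℤ)) = X.dim := by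
      rw [dim_prod]; push_cast; ring
    rw [e1] at h2
    exact h2
  rw [hd] at h1
  exact Submodule.sub_mem _ (Submodule.sub_mem _ h1 (C.pull_mem _ hed)) (C.pull_mem _ hed)

lemma groupCorr_mem (hd : X.dim = 1) (hed : C.Deg 1 e) (c : G → F) :
    groupCorr C a e c ∈ C.gr (X.prod X) X.dim :=
  Submodule.sum_mem _ fun _ _ => Submodule.smul_mem _ _ (C.pull_mem _ (mid_mem hd hed))

end group

section inv

variable {G : Type} [Group G] [Fintype G] {a : G → (X ⟶ X)} {e : C.A X} {a' : G → (Y ⟶ Y)}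
  {e' : C.A Y}

/-- The invariance of the values. -/
lemma vl_inv {β : C.A (X.prod Y)} (hinv : ∀ g, C.pull (prodMap (a g) (a' g)) β = β) (g : G)
    (x : W ⟶ X) (y : W ⟶ Y) : vl C β (x ≫ a g) (y ≫ a' g) = vl C β x y := by
  rw [← vl_pull, hinv]

/-- The action from the left on invariant classes. -/
lemma groupCorr_left (h0 : a 1 = 𝟙 X) (h1 : ∀ g h, a (g * h) = a h ≫ a g)
    (he : ∀ g, C.pull (a g) e = e)
    {β : C.A (X.prod Y)} (hfix : C.comp (midProj C e) β = β)
    (hinv : ∀ g, C.pull (prodMap (a g) (a' g)) β = β) (c : G → F) :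
    C.comp (groupCorr C a e c) β = ∑ g, c g • C.pull (prodMap (𝟙 X) (a' g)) β := by
  rw [groupCorr_eq, sum_comp]
  refine Finset.sum_congr rfl fun g _ => ?_
  rw [smul_comp1]
  congr 1
  apply ext_vl
  intro W x y
  have h3 : vl C (gP a e g) (fst W X ≫ x) (snd W X) =
      vl C (midProj C e) (fst W X ≫ x ≫ a g⁻¹) (snd W X) := by
    rw [vl_gP' h0 h1 he, Category.assoc]
  rw [vl_comp, h3, ← vl_comp, hfix, vl_pull, Category.comp_id,
    ← vl_inv hinv g (x ≫ a g⁻¹) y, Category.assoc, act_right h0 h1 g, Category.comp_id]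

/-- The action from the right. -/
lemma groupCorr_right {β : C.A (X.prod Y)} (hfix' : C.comp β (midProj C e') = β) (c : G → F) :
    C.comp β (groupCorr C a' e' c) = ∑ g, c g • C.pull (prodMap (𝟙 X) (a' g)) β := by
  rw [groupCorr_eq, comp_sum]
  refine Finset.sum_congr rfl fun g _ => ?_
  rw [comp_smul1]
  congr 1
  apply ext_vl
  intro W x y
  have h4 : vl C (gP a' e' g) (snd W Y) (fst W Y ≫ y) =
      vl C (midProj C e') (snd W Y) (fst W Y ≫ y ≫ a' g) := by
    rw [vl_gP, Category.assoc]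
  rw [vl_comp, h4, ← vl_comp, hfix', vl_pull, Category.comp_id]

/-- The equality of the actions from both sides on invariant classes. -/
lemma groupCorr_both (h0 : a 1 = 𝟙 X) (h1 : ∀ g h, a (g * h) = a h ≫ a g)
    (he : ∀ g, C.pull (a g) e = e)
    {β : C.A (X.prod Y)} (hfix : C.comp (midProj C e) β = β)
    (hfix' : C.comp β (midProj C e') = β)
    (hinv : ∀ g, C.pull (prodMap (a g) (a' g)) β = β) (c : G → F) :
    C.comp (groupCorr C a e c) β = C.comp β (groupCorr C a' e' c) := by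
  rw [groupCorr_left h0 h1 he hfix hinv, groupCorr_right hfix']

end inv

/-- A correspondence which is invariant under an automorphism does not see this automorphism. -/
lemma act_pull_inv {b : C.A (T.prod S)} {t t' : T ⟶ T} (ht : t ≫ t' = 𝟙 T) (ht' : t' ≫ t = 𝟙 T)
    (hb : C.pull (prodMap t (𝟙 S)) b = b) (γ : C.A T) : C.act b (C.pull t γ) = C.act b γ := by
  have k1 : ∀ {u v : T ⟶ T}, u ≫ v = 𝟙 T → prodMap u (𝟙 S) ≫ prodMap v (𝟙 S) = 𝟙 (T.prod S) := by
    intro u v huv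
    apply prod_ext
    · rw [Category.assoc, prodMap_fst, ← Category.assoc, prodMap_fst, Category.assoc, huv]
      simp
    · simp
  have e1 : C.pull (fst T S) (C.pull t γ) = C.pull (prodMap t (𝟙 S)) (C.pull (fst T S) γ) := by
    rw [← C.pull_comp, ← C.pull_comp, prodMap_fst]
  have e2 : prodMap t (𝟙 S) ≫ snd T S = snd T S := by simp
  rw [TheoryData.act_apply, e1]
  conv_lhs => rw [← hb, ← map_mul, ← e2, C.push_comp, push_pull_iso C _ _ (k1 ht) (k1 ht')]
  rfl

/-- The modification of invariant classes by the coefficients does not change the images. -/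
lemma act_modified [CharZero F] {G : Type} [Group G] [Fintype G] [DecidableEq G] {Φ : Type}
    [Fintype Φ] {d : Φ → ℕ} {ρ : (V : Φ) → G → Matrix (Fin (d V)) (Fin (d V)) F}
    (hρ : IsOrthogonalFamily d ρ) {z z' : G → F} (hz : Covers d ρ z z')
    {a : G → (X ⟶ X)} {e : C.A X} {a' : G → (Y ⟶ Y)} {e' : C.A Y}
    (h0 : a 1 = 𝟙 X) (h1 : ∀ g h, a (g * h) = a h ≫ a g) (he : ∀ g, C.pull (a g) e = e)
    (h0' : a' 1 = 𝟙 Y) (h1' : ∀ g h, a' (g * h) = a' h ≫ a' g)
    (hzX : groupCorr C a e z = 0) (hzY : groupCorr C a' e' z' = 0)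
    {b : C.A ((X.prod Y).prod S)}
    (hb : ∀ g, C.pull (prodMap (prodMap (a g) (a' g)) (𝟙 S)) b = b)
    {β : C.A (X.prod Y)} (hfix : C.comp (midProj C e) β = β)
    (hfix' : C.comp β (midProj C e') = β)
    (hinv : ∀ g, C.pull (prodMap (a g) (a' g)) β = β) :
    C.act b (C.comp (groupCorr C a e (fun g => ∑ V, (d V : F) * coeff hρ.pos ρ V g)) β) =
      C.act b β := by
  have hG : (Fintype.card G : F) ≠ 0 := card_ne
  set f : G → C.A S := fun g => C.act b (C.pull (prodMap (𝟙 X) (a' g)) β) with hf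
  have hact : ∀ c : G → F, C.act b (C.comp (groupCorr C a e c) β) = ∑ g, c g • f g := by
    intro c
    rw [groupCorr_left h0 h1 he hfix hinv, act_map_sum]
    exact Finset.sum_congr rfl fun g _ => act_map_smul C b (c g) _
  have hiso : ∀ g, prodMap (a g) (a' g) ≫ prodMap (a g⁻¹) (a' g⁻¹) = 𝟙 (X.prod Y) := by
    intro g
    apply prod_ext
    · rw [Category.assoc, prodMap_fst, ← Category.assoc, prodMap_fst, Category.assoc,
        act_left h0 h1]
      simp
    · rw [Category.assoc, prodMap_snd, ← Category.assoc, prodMap_snd, Category.assoc,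
        act_left h0' h1']
      simp
  have hiso' : ∀ g, prodMap (a g⁻¹) (a' g⁻¹) ≫ prodMap (a g) (a' g) = 𝟙 (X.prod Y) := by
    intro g
    have := hiso g⁻¹
    rwa [inv_inv] at this
  have hcl : ∀ g x, f (x⁻¹ * g * x) = f g := by
    intro g x
    have h2 := act_pull_inv (hiso x) (hiso' x) (hb x) (C.pull (prodMap (𝟙 X) (a' g)) β)
    simp only [hf]
    rw [← h2]
    congr 1
    apply ext_vl
    intro W p q
    rw [vl_pull, vl_pull, vl_pull, Category.comp_id, Category.comp_id,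
      ← vl_inv hinv x⁻¹ (p ≫ a x) ((q ≫ a' x) ≫ a' g), Category.assoc, act_left h0 h1,
      Category.comp_id]
    congr 1
    rw [h1', h1', Category.assoc, Category.assoc]
  rw [hact, sum_class f hcl (fun g => ∑ V, (d V : F) * coeff hρ.pos ρ V g)]
  have h3 : ∀ g, ∑ x, ∑ V, (d V : F) * coeff hρ.pos ρ V (x⁻¹ * g * x) =
      (Fintype.card G : F) * ((if g = 1 then 1 else 0) - z g - z' g) := by
    intro g
    rw [Finset.sum_comm, ← hz g]
    have h4 : ∀ V, ∑ x, (d V : F) * coeff hρ.pos ρ V (x⁻¹ * g * x) =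
        (Fintype.card G : F) * ((d V : F) / Fintype.card G * (ρ V g).trace) := by
      intro V
      rw [← Finset.mul_sum, coeff_conj hρ]
      field_simp
    rw [Finset.sum_congr rfl fun V _ => h4 V, ← Finset.mul_sum]
    ring
  rw [Finset.sum_congr rfl fun g _ => by rw [h3 g, mul_smul], ← Finset.smul_sum, smul_smul,
    inv_mul_cancel₀ hG, one_smul]
  have h5 : ∑ g, ((if g = 1 then (1 : F) else 0) - z g - z' g) • f g =
      f 1 - ∑ g, z g • f g - ∑ g, z' g • f g := by
    simp only [sub_smul, Finset.sum_sub_distrib, ite_smul, one_smul, zero_smul]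
    rw [Finset.sum_ite_eq' Finset.univ (1 : G), if_pos (Finset.mem_univ _)]
  have h6 : f 1 = C.act b β := by
    simp only [hf]
    have h2 : prodMap (𝟙 X) (𝟙 Y) = 𝟙 (X.prod Y) := by
      apply prod_ext <;> simp
    rw [h0', h2, C.pull_id]
  rw [h5, ← hact, ← hact, hzX, groupCorr_both h0 h1 he hfix hfix' hinv z', hzY, zero_comp,
    comp_zero, C.act_map_zero, sub_zero, sub_zero, h6]

end Pool.Agent.H802Voi
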