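import Pool.Agent.H802Voi.Fub

/-!
# From permanents to matchings
-/

open CategoryTheory AlgebraicGeometry

universe u v w

namespace Pool.Agent.H802Voi

open Pool.Agent.H914 Pool.Agent.H914.VarClass Pool.Agent.H914.VarClass.Obj Pool.Agent.W492.BB
  Pool.Agent.W550.Corr Pool.Agent.TH133

variable {k : Type u} [Field k] {𝒱 : VarClass k} {F : Type w} [Field F]

variable {C : TheoryData.{u, v, w} 𝒱 F} [hC : IsChowOver C] {X Y Z W V T : 𝒱.Obj}

/-- The permanents of the matrices `p (x i, y j)` are zero. -/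
def PermZero (C : TheoryData.{u, v, w} 𝒱 F) [IsChowOver C] {X : 𝒱.Obj} (p : C.A (X.prod X))
    (ι : Type) [Fintype ι] [DecidableEq ι] : Prop :=
  ∀ (W : 𝒱.Obj) (x y : ι → (W ⟶ X)), ∑ σ : Equiv.Perm ι, ∏ i, vl C p (x i) (y (σ i)) = 0

include hC

lemma vl_symm {p : C.A (X.prod X)} (hs : tp C p = p) (x y : W ⟶ X) :
    vl C p x y = vl C p y x := by
  rw [← vl_tp, hs]

lemma PermZero.equiv {ι κ : Type} [Fintype ι] [DecidableEq ι] [Fintype κ] [DecidableEq κ]
    {p : C.A (X.prod X)} (h : PermZero C p ι) (e : ι ≃ κ) : PermZero C p κ := by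
  intro W x y
  have h1 := h W (fun i => x (e i)) (fun i => y (e i))
  refine Eq.trans ?_ h1
  refine (Fintype.sum_equiv (Equiv.permCongr e) _ _ fun σ => ?_).symm
  refine Fintype.prod_equiv e _ _ fun i => ?_
  simp [Equiv.permCongr_apply]

lemma PermZero.succ {n : ℕ} {p : C.A (X.prod X)} (h : PermZero C p (Fin n)) :
    PermZero C p (Fin (n + 1)) := by
  intro W x y
  rw [← Equiv.sum_comp Equiv.Perm.decomposeFin.symm, Fintype.sum_prod_type]
  refine Finset.sum_eq_zero fun q _ => ?_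
  have h1 := h W (fun i => x i.succ) (fun j => y (Equiv.swap 0 q j.succ))
  have h2 : ∀ τ : Equiv.Perm (Fin n), ∏ i, vl C p (x i)
      (y (Equiv.Perm.decomposeFin.symm (q, τ) i)) = vl C p (x 0) (y q) *
        ∏ i : Fin n, vl C p (x i.succ) (y (Equiv.swap 0 q (τ i).succ)) := by
    intro τ
    rw [Fin.prod_univ_succ, Equiv.Perm.decomposeFin_symm_apply_zero]
    congr 1
    refine Finset.prod_congr rfl fun i _ => ?_
    rw [Equiv.Perm.decomposeFin_symm_apply_succ]
  rw [Finset.sum_congr rfl fun τ _ => h2 τ, ← Finset.mul_sum, h1, mul_zero]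

/-- Two values at a common variable point, glued by a third one. -/
lemma glue {p : C.A (X.prod X)} (hp : C.comp p p = p) (hs : tp C p = p) (a b : W ⟶ X) :
    C.push (fst W (X.prod X)) (vl C p (snd W (X.prod X) ≫ fst X X) (fst W (X.prod X) ≫ a) *
      vl C p (snd W (X.prod X) ≫ snd X X) (fst W (X.prod X) ≫ b) *
      vl C p (snd W (X.prod X) ≫ fst X X) (snd W (X.prod X) ≫ snd X X)) = vl C p a b := by
  have e1 : fst W (X.prod X) = aJ W X X ≫ fst (W.prod X) X ≫ fst W X := by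
    simp [aJ]
  have e2 : aI W X X ≫ snd W (X.prod X) ≫ fst X X = fst (W.prod X) X ≫ snd W X := by
    simp [aI]
  have e3 : aI W X X ≫ snd W (X.prod X) ≫ snd X X = snd (W.prod X) X := by
    simp [aI]
  have e4 : aI W X X ≫ fst W (X.prod X) = fst (W.prod X) X ≫ fst W X := by
    simp [aI]
  have e5 : ∀ c : W ⟶ X, aI W X X ≫ fst W (X.prod X) ≫ c =
      fst (W.prod X) X ≫ fst W X ≫ c := by
    intro c
    rw [← Category.assoc, e4, Category.assoc]
  have h1 : ∀ h : C.A (W.prod (X.prod X)), C.push (fst W (X.prod X)) h =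
      C.push (fst W X) (C.push (fst (W.prod X) X) (C.pull (aI W X X) h)) := by
    intro h
    rw [pull_iso C (aI W X X) (aJ W X X) aI_aJ aJ_aI, ← C.push_comp, ← C.push_comp, ← e1]
  rw [h1, map_mul (C.pull (aI W X X)), map_mul (C.pull (aI W X X)), pull_vl, pull_vl, pull_vl, e2,
    e3, e5, e5]
  have h2 : vl C p (fst (W.prod X) X ≫ snd W X) (fst (W.prod X) X ≫ fst W X ≫ a) *
      vl C p (snd (W.prod X) X) (fst (W.prod X) X ≫ fst W X ≫ b) *
      vl C p (fst (W.prod X) X ≫ snd W X) (snd (W.prod X) X) =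
      C.pull (fst (W.prod X) X) (vl C p (snd W X) (fst W X ≫ a)) *
      (vl C p (fst (W.prod X) X ≫ snd W X) (snd (W.prod X) X) *
        vl C p (snd (W.prod X) X) (fst (W.prod X) X ≫ fst W X ≫ b)) := by
    rw [pull_vl]
    ring
  rw [h2, C.proj_left, ← vl_comp, hp, vl_symm hs (snd W X) (fst W X ≫ a), ← vl_comp, hp]

/-- The sum over all perfect matchings is zero. -/
theorem haf {m : ℕ} {p : C.A (X.prod X)} (hp : C.comp p p = p) (hs : tp C p = p)
    (h : PermZero C p (Fin m ⊕ Fin m)) (y : Fin m ⊕ Fin m → (W ⟶ X)) :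
    ∑ σ : Equiv.Perm (Fin m ⊕ Fin m), ∏ j : Fin m,
      vl C p (y (σ (Sum.inl j))) (y (σ (Sum.inr j))) = 0 := by
  obtain ⟨P, f, t, hP⟩ := exists_fub C W (X.prod X) m
  let x : Fin m ⊕ Fin m → (P ⟶ X) := Sum.elim (fun j => t j ≫ fst X X) (fun j => t j ≫ snd X X)
  have h1 := h P x (fun i => f ≫ y i)
  have h2 : C.push f ((∑ σ : Equiv.Perm (Fin m ⊕ Fin m), ∏ i, vl C p (x i) (f ≫ y (σ i))) *
      ∏ j : Fin m, vl C p (x (Sum.inl j)) (x (Sum.inr j))) = 0 := by
    rw [h1, zero_mul, map_zero]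
  rw [Finset.sum_mul, map_sum] at h2
  refine Eq.trans (Finset.sum_congr rfl fun σ _ => ?_) h2
  have h3 : (∏ i, vl C p (x i) (f ≫ y (σ i))) * ∏ j : Fin m, vl C p (x (Sum.inl j))
      (x (Sum.inr j)) = ∏ j : Fin m, vl C (vl C p (snd W (X.prod X) ≫ fst X X)
        (fst W (X.prod X) ≫ y (σ (Sum.inl j))) *
        vl C p (snd W (X.prod X) ≫ snd X X) (fst W (X.prod X) ≫ y (σ (Sum.inr j))) *
        vl C p (snd W (X.prod X) ≫ fst X X) (snd W (X.prod X) ≫ snd X X)) f (t j) := by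
    rw [Fintype.prod_sum_type, ← Finset.prod_mul_distrib, ← Finset.prod_mul_distrib]
    refine Finset.prod_congr rfl fun j _ => ?_
    have e1 : Obj.lift f (t j) ≫ snd W (X.prod X) ≫ fst X X = x (Sum.inl j) := by
      rw [← Category.assoc, lift_snd]
      rfl
    have e2 : Obj.lift f (t j) ≫ snd W (X.prod X) ≫ snd X X = x (Sum.inr j) := by
      rw [← Category.assoc, lift_snd]
      rfl
    have e3 : ∀ c : W ⟶ X, Obj.lift f (t j) ≫ fst W (X.prod X) ≫ c = f ≫ c := by
      intro c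
      rw [← Category.assoc, lift_fst]
    conv_rhs => rw [vl, map_mul, map_mul, pull_vl, pull_vl, pull_vl, e1, e2, e3, e3]
  rw [h3, hP]
  exact Finset.prod_congr rfl fun j _ => (glue hp hs _ _).symm

end Pool.Agent.H802Voi
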