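import Pool.Agent.H802Voi.Trans
import Pool.Agent.H802Voi.AltSym

/-!
# Symmetrizations of zero-cycles in both factors
-/

open CategoryTheory AlgebraicGeometry

universe u v w

namespace Pool.Agent.H802Voi

open Pool.Agent.H914 Pool.Agent.H914.VarClass Pool.Agent.H914.VarClass.Obj Pool.Agent.W492.BB
  Pool.Agent.W550.Corr Pool.Agent.TH133 Pool.Agent.R904.Voi

variable {k : Type u} [Field k] {𝒱 : VarClass k} {F : Type w} [Field F]

variable {C : TheoryData.{u, v, w} 𝒱 F} [hC : IsChowOver C] {X Y Z W V T : 𝒱.Obj}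

include hC

/-- Two values at a common variable point, glued by a third one. -/
lemma glueS {p α : C.A (X.prod X)} (hs : tp C p = p) (hl : C.comp p α = α)
    (hr : C.comp α p = α) (a b : W ⟶ X) :
    C.push (fst W (X.prod X)) (vl C p (snd W (X.prod X) ≫ fst X X) (fst W (X.prod X) ≫ a) *
      vl C p (snd W (X.prod X) ≫ snd X X) (fst W (X.prod X) ≫ b) *
      vl C α (snd W (X.prod X) ≫ fst X X) (snd W (X.prod X) ≫ snd X X)) = vl C α a b := by
  have e1 : fst W (X.prod X) = aJ W X X ≫ fst (W.prod X) X ≫ fst W X := by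
    simp [aJ]
  have e2 : aI W X X ≫ snd W (X.prod X) ≫ fst X X = fst (W.prod X) X ≫ snd W X := by
    simp [aI]
  have e3 : aI W X X ≫ snd W (X.prod X) ≫ snd X X = snd (W.prod X) X := by
    simp [aI]
  have e4 : aI W X X ≫ fst W (X.prod X) = fst (W.prod X) X ≫ fst W X := by
    simp [aI]
  have e5 : ∀ c : W ⟶ X, aI W X X ≫ fst W (X.prod X) ≫ c =
      fst (W.prod X) X ≫ fst W X ≫ c := by
    intro c
    rw [← Category.assoc, e4, Category.assoc]
  have h1 : ∀ h : C.A (W.prod (X.prod X)), C.push (fst W (X.prod X)) h =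
      C.push (fst W X) (C.push (fst (W.prod X) X) (C.pull (aI W X X) h)) := by
    intro h
    rw [pull_iso C (aI W X X) (aJ W X X) aI_aJ aJ_aI, ← C.push_comp, ← C.push_comp, ← e1]
  rw [h1, map_mul (C.pull (aI W X X)), map_mul (C.pull (aI W X X)), pull_vl, pull_vl, pull_vl, e2,
    e3, e5, e5]
  have h2 : vl C p (fst (W.prod X) X ≫ snd W X) (fst (W.prod X) X ≫ fst W X ≫ a) *
      vl C p (snd (W.prod X) X) (fst (W.prod X) X ≫ fst W X ≫ b) *
      vl C α (fst (W.prod X) X ≫ snd W X) (snd (W.prod X) X) =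
      C.pull (fst (W.prod X) X) (vl C p (snd W X) (fst W X ≫ a)) *
      (vl C α (fst (W.prod X) X ≫ snd W X) (snd (W.prod X) X) *
        vl C p (snd (W.prod X) X) (fst (W.prod X) X ≫ fst W X ≫ b)) := by
    rw [pull_vl]
    ring
  rw [h2, C.proj_left, ← vl_comp, hr, vl_symm hs (snd W X) (fst W X ≫ a), ← vl_comp, hl]

/-- The projection of `X × X` belonging to an index. -/
noncomputable def pr (X : 𝒱.Obj) (b : Bool) : X.prod X ⟶ X := if b then snd X X else fst X X

/-- A product of too many factors, in one block. -/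
lemma vanish1 {p : C.A (X.prod X)} (hp : p ∈ C.gr (X.prod X) X.dim) (hd : 0 < X.dim)
    {α : C.A (X.prod X)} (hα : α ∈ C.gr (X.prod X) ((X.dim : ℤ) + X.dim)) (t : W ⟶ X.prod X)
    (b b' : Bool) :
    vl C p (t ≫ pr X b) (t ≫ pr X b') * C.pull t α = 0 := by
  have h0 : vl C p (pr X b) (pr X b') * α = 0 := by
    apply hC.gr_top _ (X.dim + (X.dim + X.dim))
    · exact C.mul_mem (vl_mem hp _ _) hα
    · rw [dim_prod]
      push_cast
      have : (0 : ℤ) < X.dim := by exact_mod_cast hd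
      linarith
  have h1 := congrArg (C.pull t) h0
  rwa [map_zero, map_mul, pull_vl] at h1

/-- A product of too many factors, in two blocks. -/
lemma vanish2 {p : C.A (X.prod X)} (hp : p ∈ C.gr (X.prod X) X.dim) (hd : 0 < X.dim)
    {α α' : C.A (X.prod X)} (hα : α ∈ C.gr (X.prod X) ((X.dim : ℤ) + X.dim))
    (hα' : α' ∈ C.gr (X.prod X) ((X.dim : ℤ) + X.dim)) (t t' : W ⟶ X.prod X)
    (b b' : Bool) :
    vl C p (t ≫ pr X b) (t' ≫ pr X b') * (C.pull t α * C.pull t' α') = 0 := by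
  have h0 : vl C p (fst (X.prod X) (X.prod X) ≫ pr X b) (snd (X.prod X) (X.prod X) ≫ pr X b') *
      (C.pull (fst (X.prod X) (X.prod X)) α * C.pull (snd (X.prod X) (X.prod X)) α') = 0 := by
    apply hC.gr_top _ (X.dim + ((X.dim + X.dim) + (X.dim + X.dim)))
    · exact C.mul_mem (vl_mem hp _ _) (C.mul_mem (C.pull_mem _ hα) (C.pull_mem _ hα'))
    · rw [dim_prod, dim_prod]
      push_cast
      have : (0 : ℤ) < X.dim := by exact_mod_cast hd
      linarith
  have h1 := congrArg (C.pull (Obj.lift t t')) h0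
  rwa [map_zero, map_mul, map_mul, pull_vl, ← C.pull_comp, ← C.pull_comp, ← Category.assoc,
    ← Category.assoc, lift_fst, lift_snd] at h1

/-- The values at the points `x` of the product of the classes `α`. -/
noncomputable def valS {n : ℕ} (α : Fin n → C.A (X.prod X)) (x : Fin n × Bool → (W ⟶ X)) :
    C.A W := ∏ j, vl C (α j) (x (j, false)) (x (j, true))

/-- The point at a position. -/
noncomputable def pt {n : ℕ} (t : Fin n → (W ⟶ X.prod X)) (k : Fin n × Bool) : W ⟶ X :=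
  t k.1 ≫ pr X k.2

lemma van_pt {n : ℕ} {p : C.A (X.prod X)} (hp : p ∈ C.gr (X.prod X) X.dim) (hd : 0 < X.dim)
    {α : Fin n → C.A (X.prod X)} (hα : ∀ j, α j ∈ C.gr (X.prod X) ((X.dim : ℤ) + X.dim))
    (t : Fin n → (W ⟶ X.prod X)) (k k' : Fin n × Bool) :
    vl C p (pt t k) (pt t k') * ∏ j, C.pull (t j) (α j) = 0 := by
  classical
  rw [pt, pt]
  by_cases hj : k.1 = k'.1
  · rw [hj, ← Finset.mul_prod_erase Finset.univ _ (Finset.mem_univ k'.1), ← mul_assoc,
      vanish1 hp hd (hα k'.1), zero_mul]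
  · have hj' : k'.1 ∈ Finset.univ.erase k.1 := Finset.mem_erase.2 ⟨Ne.symm hj, Finset.mem_univ _⟩
    rw [← Finset.mul_prod_erase Finset.univ _ (Finset.mem_univ k.1),
      ← Finset.mul_prod_erase _ _ hj', ← mul_assoc, ← mul_assoc, mul_assoc (vl C p _ _),
      vanish2 hp hd (hα k.1) (hα k'.1), zero_mul]

lemma push_pt {n : ℕ} {p : C.A (X.prod X)} (hs : tp C p = p)
    {α : Fin n → C.A (X.prod X)}
    (hfix : ∀ j, C.comp p (α j) = α j) (hfix' : ∀ j, C.comp (α j) p = α j) {P : 𝒱.Obj}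
    {f : P ⟶ W} {t : Fin n → (P ⟶ X.prod X)}
    (hP : ∀ h : Fin n → C.A (W.prod (X.prod X)),
      C.push f (∏ i, vl C (h i) f (t i)) = ∏ i, C.push (fst W (X.prod X)) (h i))
    (x : Fin n × Bool → (W ⟶ X)) :
    C.push f ((∏ k, vl C p (pt t k) (f ≫ x k)) * ∏ j, C.pull (t j) (α j)) = valS α x := by
  rw [Fintype.prod_prod_type, ← Finset.prod_mul_distrib]
  have h5 : ∀ j : Fin n, (∏ b : Bool, vl C p (pt t (j, b)) (f ≫ x (j, b))) *
      C.pull (t j) (α j) =
      vl C (vl C p (snd W (X.prod X) ≫ fst X X) (fst W (X.prod X) ≫ x (j, false)) *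
        vl C p (snd W (X.prod X) ≫ snd X X) (fst W (X.prod X) ≫ x (j, true)) *
        vl C (α j) (snd W (X.prod X) ≫ fst X X) (snd W (X.prod X) ≫ snd X X)) f (t j) := by
    intro j
    have e1 : Obj.lift f (t j) ≫ snd W (X.prod X) ≫ fst X X = pt t (j, false) := by
      rw [← Category.assoc, lift_snd]
      rfl
    have e2 : Obj.lift f (t j) ≫ snd W (X.prod X) ≫ snd X X = pt t (j, true) := by
      rw [← Category.assoc, lift_snd]
      rfl
    have e3 : ∀ c : W ⟶ X, Obj.lift f (t j) ≫ fst W (X.prod X) ≫ c = f ≫ c := by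
      intro c
      rw [← Category.assoc, lift_fst]
    conv_rhs => rw [vl, map_mul, map_mul, pull_vl, pull_vl, pull_vl, e1, e2, e3, e3]
    rw [Fintype.prod_bool, mul_comm (vl C p (pt t (j, true)) _)]
    congr 1
    have e4 : Obj.lift (pt t (j, false)) (pt t (j, true)) = t j := by
      apply prod_ext
      · rw [lift_fst]; rfl
      · rw [lift_snd]; rfl
    rw [vl, e4]
  rw [Finset.prod_congr rfl fun j _ => h5 j, hP]
  exact Finset.prod_congr rfl fun j _ => glueS hs (hfix j) (hfix' j) _ _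

omit hC in
/-- The extension of a permutation of the positions of `A`. -/
noncomputable def ext' {n m : ℕ} {A : Finset (Fin n × Bool)} (e : Fin m ≃ A)
    (ρ : Equiv.Perm (Fin m)) : Equiv.Perm (Fin n × Bool) :=
  Equiv.Perm.ofSubtype (e.permCongr ρ)

omit hC in
lemma ext'_mul {n m : ℕ} {A : Finset (Fin n × Bool)} (e : Fin m ≃ A)
    (ρ ρ' : Equiv.Perm (Fin m)) (k : Fin n × Bool) :
    ext' e (ρ * ρ') k = ext' e ρ (ext' e ρ' k) := by
  have h4 : e.permCongr (ρ * ρ') = e.permCongr ρ * e.permCongr ρ' := by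
    refine Equiv.ext fun i => ?_
    rw [Equiv.Perm.mul_apply, Equiv.permCongr_apply, Equiv.permCongr_apply,
      Equiv.permCongr_apply, Equiv.symm_apply_apply, Equiv.Perm.mul_apply]
  rw [ext', ext', ext', h4, map_mul, Equiv.Perm.mul_apply]

omit hC in
lemma ext'_mem {n m : ℕ} {A : Finset (Fin n × Bool)} (e : Fin m ≃ A)
    (ρ : Equiv.Perm (Fin m)) (b : Fin m) : ext' e ρ (e b) = e (ρ b) := by
  rw [ext', Equiv.Perm.ofSubtype_apply_coe, Equiv.permCongr_apply, Equiv.symm_apply_apply]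

omit hC in
lemma ext'_not_mem {n m : ℕ} {A : Finset (Fin n × Bool)} (e : Fin m ≃ A)
    (ρ : Equiv.Perm (Fin m)) {k : Fin n × Bool} (hk : k ∉ A) : ext' e ρ k = k := by
  rw [ext', Equiv.Perm.ofSubtype_apply_of_not_mem _ hk]

/-- The term of a matching. -/
noncomputable def trm {n m : ℕ} (p : C.A (X.prod X)) (α : Fin n → C.A (X.prod X))
    {A : Finset (Fin n × Bool)} (e : Fin m ≃ A) {P : 𝒱.Obj} (f : P ⟶ W)
    (t : Fin n → (P ⟶ X.prod X)) (x : Fin n × Bool → (W ⟶ X))
    (σ : Equiv.Perm (Fin m ⊕ Fin m)) : C.A W :=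
  C.push f ((∏ j : Fin m,
    vl C p ((Sum.elim (fun i => f ≫ x (e i)) (fun i => pt t (e i)) : Fin m ⊕ Fin m → (P ⟶ X))
      (σ (Sum.inl j)))
    ((Sum.elim (fun i => f ≫ x (e i)) (fun i => pt t (e i)) : Fin m ⊕ Fin m → (P ⟶ X))
      (σ (Sum.inr j)))) *
    ((∏ k ∈ Aᶜ, vl C p (pt t k) (f ≫ x k)) * ∏ j, C.pull (t j) (α j)))

lemma trm_sum {n m : ℕ} {p : C.A (X.prod X)} (hp : C.comp p p = p) (hs : tp C p = p)
    (h : PermZero C p (Fin m ⊕ Fin m)) (α : Fin n → C.A (X.prod X))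
    {A : Finset (Fin n × Bool)} (e : Fin m ≃ A) {P : 𝒱.Obj} (f : P ⟶ W)
    (t : Fin n → (P ⟶ X.prod X)) (x : Fin n × Bool → (W ⟶ X)) :
    ∑ σ, trm p α e f t x σ = 0 := by
  have h1 := haf hp hs h
    (Sum.elim (fun i => f ≫ x (e i)) (fun i => pt t (e i)) : Fin m ⊕ Fin m → (P ⟶ X))
  simp only [trm]
  rw [← map_sum, ← Finset.sum_mul, h1, zero_mul, map_zero]

lemma trm_bad {n m : ℕ} {p : C.A (X.prod X)} (hs : tp C p = p)
    (hpd : p ∈ C.gr (X.prod X) X.dim) (hd : 0 < X.dim)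
    {α : Fin n → C.A (X.prod X)} (hα : ∀ j, α j ∈ C.gr (X.prod X) ((X.dim : ℤ) + X.dim))
    {A : Finset (Fin n × Bool)} (e : Fin m ≃ A) {P : 𝒱.Obj} (f : P ⟶ W)
    (t : Fin n → (P ⟶ X.prod X)) (x : Fin n × Bool → (W ⟶ X))
    {σ : Equiv.Perm (Fin m ⊕ Fin m)} (hσ : ¬ Good σ) : trm p α e f t x σ = 0 := by
  rcases good_or σ with h1 | ⟨b, b', hbb, h1⟩
  · exact absurd h1 hσ
  have h2 := factor hs
    (Sum.elim (fun i => f ≫ x (e i)) (fun i => pt t (e i)) : Fin m ⊕ Fin m → (P ⟶ X)) σ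
    (Sum.inr b)
  rw [h1, Sum.elim_inr, Sum.elim_inr] at h2
  rw [trm]
  have h4 := van_pt hpd hd hα t (e b) (e b')
  rw [← Finset.mul_prod_erase Finset.univ _ (Finset.mem_univ (idx σ (Sum.inr b))), h2]
  have h5 : ∀ q r s B : C.A P, s * B = 0 → s * q * (r * B) = 0 := by
    intro q r s B h
    linear_combination (q * r) * h
  rw [h5 _ _ _ _ h4, map_zero]

lemma trm_good {n m : ℕ} {p : C.A (X.prod X)} (hs : tp C p = p)
    {α : Fin n → C.A (X.prod X)}
    (hfix : ∀ j, C.comp p (α j) = α j) (hfix' : ∀ j, C.comp (α j) p = α j)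
    {A : Finset (Fin n × Bool)} (e : Fin m ≃ A) {P : 𝒱.Obj} {f : P ⟶ W}
    {t : Fin n → (P ⟶ X.prod X)}
    (hP : ∀ h : Fin n → C.A (W.prod (X.prod X)),
      C.push f (∏ i, vl C (h i) f (t i)) = ∏ i, C.push (fst W (X.prod X)) (h i))
    (x : Fin n × Bool → (W ⟶ X))
    {σ : Equiv.Perm (Fin m ⊕ Fin m)} {ρ : Equiv.Perm (Fin m)}
    (hρ : ∀ b, prt σ (Sum.inr b) = Sum.inl (ρ b)) :
    trm p α e f t x σ = valS α (fun k => x (ext' e ρ k)) := by
  classical
  have hinj : Function.Injective fun b : Fin m => idx σ (Sum.inr b) := by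
    intro b b' hb
    by_contra hne
    have h1 := idx_eq σ hb (fun h => hne (Sum.inr_injective h))
    rw [hρ] at h1
    cases h1
  let e0 : Fin m ≃ Fin m := Equiv.ofBijective _ (Finite.injective_iff_bijective.1 hinj)
  have h1 : (∏ j : Fin m,
      vl C p ((Sum.elim (fun i => f ≫ x (e i)) (fun i => pt t (e i)) : Fin m ⊕ Fin m → (P ⟶ X))
        (σ (Sum.inl j)))
      ((Sum.elim (fun i => f ≫ x (e i)) (fun i => pt t (e i)) : Fin m ⊕ Fin m → (P ⟶ X))
        (σ (Sum.inr j)))) =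
      ∏ b, vl C p (pt t (e b)) (f ≫ x (ext' e ρ (e b))) := by
    rw [← Equiv.prod_comp e0]
    refine Finset.prod_congr rfl fun b _ => ?_
    have h2 := factor hs
      (Sum.elim (fun i => f ≫ x (e i)) (fun i => pt t (e i)) : Fin m ⊕ Fin m → (P ⟶ X)) σ
      (Sum.inr b)
    rw [hρ, Sum.elim_inr, Sum.elim_inl] at h2
    rw [ext'_mem]
    exact h2
  have h4 : (∏ b, vl C p (pt t (e b)) (f ≫ x (ext' e ρ (e b)))) *
      ∏ k ∈ Aᶜ, vl C p (pt t k) (f ≫ x k) =
      ∏ k, vl C p (pt t k) (f ≫ x (ext' e ρ k)) := by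
    rw [← Finset.prod_mul_prod_compl A]
    congr 1
    · rw [← Finset.prod_coe_sort A (fun k => vl C p (pt t k) (f ≫ x (ext' e ρ k)))]
      exact Equiv.prod_comp e (fun k : A => vl C p (pt t k) (f ≫ x (ext' e ρ k)))
    · refine Finset.prod_congr rfl fun k hk => ?_
      rw [ext'_not_mem e ρ (Finset.mem_compl.1 hk)]
  rw [trm, h1, ← mul_assoc, h4]
  exact push_pt hs hfix hfix' hP (fun k => x (ext' e ρ k))

/-- The symmetrization in the positions of `A` of a product of zero-cycles which come from a motive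
with vanishing permanents is zero. -/
theorem relS [CharZero F] {n m : ℕ} {p : C.A (X.prod X)} (hp : C.comp p p = p) (hs : tp C p = p)
    (hpd : p ∈ C.gr (X.prod X) X.dim) (hd : 0 < X.dim) (h : PermZero C p (Fin m ⊕ Fin m))
    {α : Fin n → C.A (X.prod X)} (hα : ∀ j, α j ∈ C.gr (X.prod X) ((X.dim : ℤ) + X.dim))
    (hfix : ∀ j, C.comp p (α j) = α j) (hfix' : ∀ j, C.comp (α j) p = α j)
    (A : Finset (Fin n × Bool)) (e : Fin m ≃ A) (x : Fin n × Bool → (W ⟶ X)) :
    ∑ ρ : Equiv.Perm (Fin m), valS α (fun k => x (ext' e ρ k)) = 0 := by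
  classical
  obtain ⟨P, f, t, hP⟩ := exists_fub (C := C) W (X.prod X) n
  -- the sum over all permutations of `x`
  have h1 : ∑ g : Equiv.Perm (Fin m), ∑ σ : Equiv.Perm (Fin m ⊕ Fin m),
      trm p α e f t (fun k => x (ext' e g k)) σ = 0 :=
    Finset.sum_eq_zero fun g _ => trm_sum hp hs h α e f t _
  rw [Finset.sum_comm] at h1
  have h2 : ∀ σ : Equiv.Perm (Fin m ⊕ Fin m), ∑ g : Equiv.Perm (Fin m),
      trm p α e f t (fun k => x (ext' e g k)) σ =
        (if Good σ then (1 : F) else 0) • ∑ ρ : Equiv.Perm (Fin m),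
          valS α (fun k => x (ext' e ρ k)) := by
    intro σ
    split_ifs with hg
    · rw [one_smul]
      obtain ⟨ρ, hρ⟩ := hg
      have h3 : ∀ g : Equiv.Perm (Fin m),
          trm p α e f t (fun k => x (ext' e g k)) σ =
          valS α (fun k => x (ext' e (g * ρ) k)) := by
        intro g
        rw [trm_good hs hfix hfix' e hP (fun k => x (ext' e g k)) hρ]
        congr 1
        funext k
        rw [ext'_mul]
      rw [Finset.sum_congr rfl fun g _ => h3 g]
      exact Equiv.sum_comp (Equiv.mulRight ρ)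
        (fun ρ : Equiv.Perm (Fin m) => valS α (fun k => x (ext' e ρ k)))
    · rw [zero_smul]
      exact Finset.sum_eq_zero fun g _ => trm_bad hs hpd hd hα e f t _ hg
  rw [Finset.sum_congr rfl fun σ _ => h2 σ, ← Finset.sum_smul] at h1
  have h3 : (∑ σ : Equiv.Perm (Fin m ⊕ Fin m), (if Good σ then (1 : F) else 0)) ≠ 0 := by
    rw [Finset.sum_boole, Nat.cast_ne_zero, Finset.card_ne_zero]
    exact ⟨1, Finset.mem_filter.2 ⟨Finset.mem_univ _, good_one⟩⟩
  exact (smul_eq_zero.1 h1).resolve_left h3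

/-- The determinant of symmetric zero-cycles on `X × X` which come from a motive with vanishing
permanents of the size `2 a + 1` is zero, if its size is greater than `a (a - 1) / 2`. -/
theorem det_zero_sym [CharZero F] {n a : ℕ} (ha : a.choose 2 < n) {p : C.A (X.prod X)}
    (hp : OddSym p a) {α : Fin n → C.A (X.prod X)}
    (hα : ∀ j, α j ∈ C.gr (X.prod X) ((X.dim : ℤ) + X.dim))
    (hfix : ∀ j, C.comp p (α j) = α j) (hfix' : ∀ j, C.comp (α j) p = α j)
    (hsym : ∀ j, tp C (α j) = α j) (x y : Fin n → (W ⟶ X)) :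
    (Matrix.of fun i j => vl C (α j) (x i) (y i)).det = 0 := by
  classical
  let := ratAlg C W
  let ξ : Fin n × Bool → (W ⟶ X) := fun k => if k.2 then y k.1 else x k.1
  have h1 := alt_sym ha (M := C.A W) (fun π => valS α (fun k => ξ (π k))) ?_ ?_
  · rw [Matrix.det_apply, ← h1]
    refine Finset.sum_congr rfl fun σ _ => ?_
    rw [Units.smul_def, Int.cast_smul_eq_zsmul]
    rfl
  · intro A hA σ
    let e : Fin (a + 1) ≃ A := (A.equivFinOfCardEq hA).symm
    rw [← Equiv.sum_comp e.permCongr]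
    exact relS hp.idem hp.symm hp.deg hp.pos hp.perm hα hfix hfix' A e (fun k => ξ (σ k))
  · intro σ ε
    refine Finset.prod_congr rfl fun j _ => ?_
    beta_reduce
    rw [shear_apply, shear_apply, shear_apply, shear_apply]
    have h2 : ∀ ε : Equiv.Perm Bool, (ε false = false ∧ ε true = true) ∨
        (ε false = true ∧ ε true = false) := by decide
    rcases h2 (ε j) with ⟨h3, h4⟩ | ⟨h3, h4⟩
    · rw [h3, h4]
      rfl
    · rw [h3, h4, vl_symm (hsym j)]
      rfl

/-- The determinant of symmetric classes on `X × X` which are sums of classes of several types. -/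
theorem det_types_sym [CharZero F] {n : ℕ} {Φ : Type} [Fintype Φ] [DecidableEq Φ] (γ : Φ → ℕ)
    (hn : ∑ φ, (γ φ).choose 2 < n) {p : Φ → C.A (X.prod X)} (hp : ∀ φ, OddSym (p φ) (γ φ))
    {β : Fin n → C.A (X.prod X)}
    (hβ : ∀ j, β j ∈ C.gr (X.prod X) ((X.dim : ℤ) + X.dim))
    (hsum : ∀ j, C.comp (∑ φ, p φ) (β j) = β j)
    (hpq : ∀ φ j, C.comp (p φ) (β j) = C.comp (β j) (p φ))
    (hsym : ∀ j, tp C (β j) = β j) (t : Fin n → (W ⟶ X.prod X)) :
    (Matrix.of fun i j => C.pull (t i) (β j)).det = 0 := by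
  classical
  let := ratAlg C W
  have h1 : (Matrix.of fun i j => C.pull (t i) (β j)) = Matrix.of fun i j =>
      ∑ φ, (Matrix.of fun i j => vl C (C.comp (p φ) (β j)) (t i ≫ fst X X) (t i ≫ snd X X) :
        Matrix (Fin n) (Fin n) (C.A W)) i j := by
    funext i j
    have h2 : Obj.lift (t i ≫ fst X X) (t i ≫ snd X X) = t i := by
      apply prod_ext <;> simp
    simp only [Matrix.of_apply]
    rw [← vl_sum, ← sum_comp, hsum, vl, h2]
  rw [h1]
  refine det_of_types (fun φ => (γ φ).choose 2) hn (fun φ => Matrix.of fun i j =>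
    vl C (C.comp (p φ) (β j)) (t i ≫ fst X X) (t i ≫ snd X X)) fun φ J hJ r => ?_
  let e : J ≃ Fin J.card := J.equivFin
  rw [← Matrix.det_reindex_self e]
  have h3 := det_zero_sym (W := W) hJ (hp φ)
    (α := fun j : Fin J.card => C.comp (p φ) (β (e.symm j))) (fun j => by
      have h4 := comp_mem C (e := 0) (e' := X.dim) (Γ := p φ) (Δ := β (e.symm j))
        (by rw [add_zero]; exact (hp φ).deg) (hβ (e.symm j))
      rwa [zero_add] at h4) (fun j => by rw [← comp_assoc, (hp φ).idem]) (fun j => by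
      rw [comp_assoc, ← hpq, ← comp_assoc, (hp φ).idem]) (fun j => by
      rw [tp_comp C (ch_comm C), hsym, (hp φ).symm, ← hpq])
    (fun i => t (r (e.symm i)) ≫ fst X X) (fun i => t (r (e.symm i)) ≫ snd X X)
  exact h3

end Pool.Agent.H802Voi
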