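import Pool.Agent.H802Voi.Grp
import Pool.Agent.H802Voi.RelSym

/-!
# The alternating sums of products of zero-cycles
-/

open CategoryTheory AlgebraicGeometry

universe u v w

namespace Pool.Agent.H802Voi

open Pool.Agent.H914 Pool.Agent.H914.VarClass Pool.Agent.H914.VarClass.Obj Pool.Agent.W492.BB
  Pool.Agent.W550.Corr Pool.Agent.TH133 Pool.Agent.R904.Voi

variable {k : Type u} [Field k] {𝒱 : VarClass k} {F : Type w} [Field F]

variable {C : TheoryData.{u, v, w} 𝒱 F} [hC : IsChowOver C] {X Y Z W V T S : 𝒱.Obj}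

include hC

lemma symmetricPower_eq {n : ℕ} (p : C.A (X.prod X)) (x y : Fin n → (W ⟶ X)) :
    symmetricPower C p x y = ∑ σ : Equiv.Perm (Fin n), ∏ i, vl C p (x i) (y (σ i)) := by
  rw [symmetricPower]
  refine Finset.sum_congr rfl fun σ _ => ?_
  rw [List.prod_ofFn]
  rfl

lemma alternatingSum_eq {n : ℕ} (α : Fin n → C.A S) (s : Fin n → (W ⟶ S)) :
    alternatingSum C α s = (Matrix.of fun i j => C.pull (s i) (α j)).det := by
  rw [← Matrix.det_transpose, Matrix.det_apply, alternatingSum]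
  refine Finset.sum_congr rfl fun σ _ => ?_
  rw [List.prod_ofFn, Units.smul_def]
  rfl

lemma graph_deg (f : X ⟶ Y) : C.Deg Y.dim (C.graph f) := by
  have h2 := C.push_mem (Obj.lift (𝟙 X) f) (C.one_mem X)
  have e1 : (0 : ℤ) + 1 * (((X.prod Y).dim : ℤ) - (X.dim : ℤ)) = Y.dim := by
    rw [dim_prod]; push_cast; ring
  rw [e1] at h2
  exact h2

/-- The Albanese kernel is mapped to the Albanese kernel. -/
lemma albKer_act {b : C.A (X.prod Y)} (hb : C.Deg X.dim b) (hXY : X.dim = Y.dim) {α : C.A X}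
    (hα : InAlbaneseKernel C α) : InAlbaneseKernel C (C.act b α) := by
  refine ⟨?_, fun Z W hW => ?_⟩
  · have h := C.push_mem (snd X Y) (C.mul_mem hb (C.pull_mem (fst X Y) hα.deg))
    have e1 : (X.dim : ℤ) + X.dim + 1 * ((Y.dim : ℤ) - ((X.prod Y).dim : ℤ)) = Y.dim := by
      rw [dim_prod, hXY]; push_cast; ring
    rw [e1] at h
    exact h
  · rw [← C.act_comp]
    refine hα.act_eq_zero Z _ ?_
    have h := comp_mem C (e := 0) (e' := 1 - Y.dim) (Γ := b) (Δ := W) (by rwa [add_zero])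
      (by rw [add_sub_cancel]; exact hW)
    have e1 : (X.dim : ℤ) + (0 + (1 - Y.dim)) = 1 := by rw [hXY]; ring
    rw [e1] at h
    exact h

/-- The action commutes with automorphisms which preserve the correspondence. -/
lemma act_tp_inv {b : C.A (X.prod S)} {g : X ⟶ X} (hg : C.pull (prodMap g (𝟙 S)) b = b)
    (α : C.A S) : C.pull g (C.act (tp C b) α) = C.act (tp C b) α := by
  rw [pull_act]
  conv_rhs => rw [← C.pull_id (C.act (tp C b) α), pull_act]
  congr 2
  rw [vl_tp, vl_tp, Category.comp_id]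
  conv_rhs => rw [← hg, vl_pull, Category.comp_id]

variable (C) in
/-- The determinants of size greater than `N` vanish on the Albanese kernel of the surface `S`. -/
def VProp (S : 𝒱.Obj) (N : ℕ) : Prop :=
  S.dim = 2 ∧ ∀ (n : ℕ), N < n → ∀ α : Fin n → C.A S, (∀ i, InAlbaneseKernel C (α i)) →
    ∀ (W : 𝒱.Obj) (s : Fin n → (W ⟶ S)), (Matrix.of fun i j => C.pull (s i) (α j)).det = 0

/-- From the vanishing on `T` to the vanishing on `S`. -/
lemma det_dominated {n : ℕ} {b : C.A (T.prod S)} {N : F} (hN : N ≠ 0) {α : Fin n → C.A S}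
    {β : Fin n → C.A T} (hβ : ∀ j, C.act b (β j) = N • α j)
    (h : ∀ (W : 𝒱.Obj) (t : Fin n → (W ⟶ T)),
      (Matrix.of fun i j => C.pull (t i) (β j)).det = 0) (s : Fin n → (W ⟶ S)) :
    (Matrix.of fun i j => C.pull (s i) (α j)).det = 0 := by
  have h3 := det_trans b β h s
  have h4 : (Matrix.of fun i j => C.pull (s i) (C.act b (β j))) =
      N • (Matrix.of fun i j => C.pull (s i) (α j)) := by
    funext i j
    rw [Matrix.smul_apply, Matrix.of_apply, Matrix.of_apply, hβ j, map_smul]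
  rw [h4, ← algebraMap_smul (C.A W) N, Matrix.det_smul, ← map_pow, ← Algebra.smul_def] at h3
  exact (smul_eq_zero.1 h3).resolve_left (pow_ne_zero _ hN)

section types

set_option linter.unusedSectionVars false

variable [CharZero F] {G : Type} [Group G] [Fintype G] [DecidableEq G] {Φ : Type} [Fintype Φ]
  {d : Φ → ℕ} {ρ : (V : Φ) → G → Matrix (Fin (d V)) (Fin (d V)) F}

/-- The projectors have the properties of `OddSym`. -/
lemma oddSym (hρ : IsOrthogonalFamily d ρ) {a : G → (X ⟶ X)} {e : C.A X} {γ : Φ → ℕ}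
    (hd : X.dim = 1) (h0 : a 1 = 𝟙 X) (h1 : ∀ g h, a (g * h) = a h ≫ a g)
    (he : C.Deg 1 e) (he1 : DegreeOne C e) (hinv : ∀ g, C.up (a g) e = e)
    (hk : ∀ (V : Φ) (W : 𝒱.Obj) (x y : Fin (2 * γ V + 1) → (W ⟶ X)),
      symmetricPower C (groupCorr C a e (coeff hρ.pos ρ V)) x y = 0) (V : Φ) :
    OddSym (groupCorr C a e (coeff hρ.pos ρ V)) (γ V) := by
  refine ⟨?_, groupCorr_tp h0 h1 hinv (coeff_inv hρ V), groupCorr_mem hd he _,
    by omega, permZero_double fun W x y => by rw [← symmetricPower_eq]; exact hk V W x y⟩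
  rw [groupCorr_comp hd he he1 h0 h1 hinv]
  congr 1
  funext m
  exact coeff_conv_self hρ V m

/-- The element `∑_V (dim V) e_V` of the group algebra. -/
noncomputable def eps (hρ : IsOrthogonalFamily d ρ) (g : G) : F :=
  ∑ V, (d V : F) * coeff hρ.pos ρ V g

omit hC in
lemma eps_left (hρ : IsOrthogonalFamily d ρ) (V : Φ) (m : G) :
    ∑ g, coeff hρ.pos ρ V g * eps hρ (g⁻¹ * m) = (d V : F) * coeff hρ.pos ρ V m := by
  classical
  simp only [eps, Finset.mul_sum]
  rw [Finset.sum_comm, Finset.sum_eq_single V]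
  · rw [← coeff_conv_self hρ V m, Finset.mul_sum]
    exact Finset.sum_congr rfl fun g _ => by ring
  · intro V' _ hV'
    rw [← mul_zero (d V' : F), ← coeff_conv_ne hρ hV'.symm m, Finset.mul_sum]
    exact Finset.sum_congr rfl fun g _ => by ring
  · intro h
    exact absurd (Finset.mem_univ _) h

omit hC in
lemma eps_right (hρ : IsOrthogonalFamily d ρ) (V : Φ) (m : G) :
    ∑ g, eps hρ g * coeff hρ.pos ρ V (g⁻¹ * m) = (d V : F) * coeff hρ.pos ρ V m := by
  classical
  simp only [eps, Finset.sum_mul]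
  rw [Finset.sum_comm, Finset.sum_eq_single V]
  · rw [← coeff_conv_self hρ V m, Finset.mul_sum]
    exact Finset.sum_congr rfl fun g _ => by ring
  · intro V' _ hV'
    rw [← mul_zero (d V' : F), ← coeff_conv_ne hρ hV' m, Finset.mul_sum]
    exact Finset.sum_congr rfl fun g _ => by ring
  · intro h
    exact absurd (Finset.mem_univ _) h

lemma groupCorr_smul {a : G → (X ⟶ X)} {e : C.A X} (q : F) (c : G → F) :
    groupCorr C a e (fun g => q * c g) = q • groupCorr C a e c := by
  rw [groupCorr_eq, groupCorr_eq, Finset.smul_sum]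
  exact Finset.sum_congr rfl fun g _ => by rw [mul_smul]

lemma groupCorr_sum {a : G → (X ⟶ X)} {e : C.A X} (c : Φ → G → F) :
    groupCorr C a e (fun g => ∑ V, c V g) = ∑ V, groupCorr C a e (c V) := by
  simp only [groupCorr_eq]
  rw [Finset.sum_comm]
  exact Finset.sum_congr rfl fun g _ => by rw [Finset.sum_smul]

/-- The modified classes are decomposed by the projectors. -/
lemma modified (hρ : IsOrthogonalFamily d ρ) {a : G → (X ⟶ X)} {e : C.A X}
    {a' : G → (Y ⟶ Y)} {e' : C.A Y} (hd : X.dim = 1) (h0 : a 1 = 𝟙 X)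
    (h1 : ∀ g h, a (g * h) = a h ≫ a g) (he : C.Deg 1 e) (he1 : DegreeOne C e)
    (hinv : ∀ g, C.up (a g) e = e) {β : C.A (X.prod Y)} (hfix : C.comp (midProj C e) β = β)
    (hfix' : C.comp β (midProj C e') = β)
    (hβ : ∀ g, C.pull (prodMap (a g) (a' g)) β = β) :
    (∀ V, C.comp (groupCorr C a e (coeff hρ.pos ρ V)) (C.comp (groupCorr C a e (eps hρ)) β) =
      (d V : F) • C.comp (groupCorr C a e (coeff hρ.pos ρ V)) β) ∧
    (∀ V, C.comp (C.comp (groupCorr C a e (eps hρ)) β) (groupCorr C a' e' (coeff hρ.pos ρ V)) =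
      (d V : F) • C.comp (groupCorr C a e (coeff hρ.pos ρ V)) β) ∧
    C.comp (∑ V, groupCorr C a e (coeff hρ.pos ρ V)) (C.comp (groupCorr C a e (eps hρ)) β) =
      C.comp (groupCorr C a e (eps hρ)) β := by
  have k1 : ∀ V, C.comp (groupCorr C a e (coeff hρ.pos ρ V))
      (C.comp (groupCorr C a e (eps hρ)) β) =
      (d V : F) • C.comp (groupCorr C a e (coeff hρ.pos ρ V)) β := by
    intro V
    rw [← comp_assoc, groupCorr_comp hd he he1 h0 h1 hinv]
    simp only [eps_left]
    rw [groupCorr_smul, smul_comp1]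
  refine ⟨k1, fun V => ?_, ?_⟩
  · rw [comp_assoc, ← groupCorr_both h0 h1 hinv hfix hfix' hβ, ← comp_assoc,
      groupCorr_comp hd he he1 h0 h1 hinv]
    simp only [eps_right]
    rw [groupCorr_smul, smul_comp1]
  · rw [sum_comp, Finset.sum_congr rfl fun V _ => k1 V]
    have h2 : groupCorr C a e (eps hρ) = ∑ V, (d V : F) • groupCorr C a e (coeff hρ.pos ρ V) := by
      have h3 : eps hρ = fun g => ∑ V, (d V : F) * coeff hρ.pos ρ V g := rfl
      rw [h3, groupCorr_sum]
      exact Finset.sum_congr rfl fun V _ => groupCorr_smul _ _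
    rw [h2, sum_comp]
    exact Finset.sum_congr rfl fun V _ => (smul_comp1 _ _ _).symm

/-- Classes with vanishing push-forwards are fixed by the projectors. -/
lemma fixed {e : C.A X} {e' : C.A Y} (hd : X.dim = 1) (hd' : Y.dim = 1) (he : C.Deg 1 e)
    (he' : C.Deg 1 e') {β : C.A (X.prod Y)} (hβ : InAlbaneseKernel C β) :
    C.Deg 2 β ∧ C.comp (midProj C e) β = β ∧ C.comp β (midProj C e') = β := by
  have hdXY : (X.prod Y).dim = 2 := by rw [dim_prod, hd, hd']
  have hβd : C.Deg 2 β := by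
    have := hβ.deg
    rw [hdXY] at this
    exact this
  have hsnd : C.push (snd X Y) β = 0 := by
    rw [← C.act_graph]
    refine hβ.act_eq_zero Y _ ?_
    have := graph_deg (C := C) (snd X Y)
    rwa [hd'] at this
  have hfst : C.push (fst X Y) β = 0 := by
    rw [← C.act_graph]
    refine hβ.act_eq_zero X _ ?_
    have := graph_deg (C := C) (fst X Y)
    rwa [hd] at this
  refine ⟨hβd, mid_fix hd hd' he hβd hsnd, ?_⟩
  have h2 : C.push (snd Y X) (tp C β) = 0 := by
    rw [tp, pull_iso C (sw Y X) (sw X Y) sw_sw sw_sw, ← C.push_comp]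
    have : sw X Y ≫ snd Y X = fst X Y := by simp [sw]
    rw [this, hfst]
  have h3 := mid_fix hd' hd he' (tp_mem C hβd) h2
  have h4 := congrArg (tp C) h3
  rwa [tp_comp C (ch_comm C), tp_tp, mid_symm] at h4

theorem vprop_quotient (hρ : IsOrthogonalFamily d ρ) {z z' : G → F} (hz : Covers d ρ z z')
    {a : G → (X ⟶ X)} {a' : G → (Y ⟶ Y)} {γ γ' : Φ → ℕ}
    (hX : IsCurveWithAction C X a hρ.pos ρ γ z)
    (hY : IsCurveWithAction C Y a' hρ.pos ρ γ' z') (hS : IsDominatedByQuotient C a a' S) :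
    VProp C S (∑ V, γ V * γ' V) := by
  classical
  obtain ⟨hd, h0, h1, e, he, he1, hinv, hk, hzX⟩ := hX
  obtain ⟨hd', h0', h1', e', he', he1', hinv', hk', hzY⟩ := hY
  obtain ⟨hSd, b, N, hb, hN, hbi, hdom⟩ := hS
  refine ⟨hSd, fun n hn α hα W s => ?_⟩
  have hdXY : (X.prod Y).dim = 2 := by rw [dim_prod, hd, hd']
  -- the classes on the product
  let β : Fin n → C.A (X.prod Y) := fun j => C.act (tp C b) (α j)
  have hβK : ∀ j, InAlbaneseKernel C (β j) := fun j => by
    refine albKer_act ?_ (by rw [hSd, hdXY]) (hα j)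
    rw [hSd]
    exact tp_mem C hb
  have hfx := fun j => fixed hd hd' he he' (hβK j)
  have hβi : ∀ j g, C.pull (prodMap (a g) (a' g)) (β j) = β j := fun j g =>
    act_tp_inv (hbi g) (α j)
  have hm := fun j => modified (e' := e') hρ hd h0 h1 he he1 hinv (hfx j).2.1 (hfx j).2.2 (hβi j)
  refine det_dominated (b := b) hN
    (β := fun j => C.comp (groupCorr C a e (eps hρ)) (β j)) (fun j => ?_) (fun W t => ?_) s
  · rw [← hdom _ (hα j)]
    exact act_modified hρ hz h0 h1 hinv h0' h1' hzX hzY hbi (hfx j).2.1 (hfx j).2.2 (hβi j)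
  · refine det_types γ γ' hn (oddSym hρ hd h0 h1 he he1 hinv hk)
      (oddSym hρ hd' h0' h1' he' he1' hinv' hk') (fun j => ?_) (fun j => (hm j).2.2)
      (fun V j => by rw [(hm j).1, (hm j).2.1]) t
    have h2 := comp_mem C (e := 0) (e' := Y.dim) (Γ := groupCorr C a e (eps hρ)) (Δ := β j)
      (by rw [add_zero]; exact groupCorr_mem hd he _) (by
        have e2 : (X.dim : ℤ) + Y.dim = 2 := by rw [hd, hd']; norm_num
        rw [e2]
        exact (hfx j).1)
    rwa [zero_add] at h2

theorem vprop_symmetric (hρ : IsOrthogonalFamily d ρ) {z : G → F} (hz : Covers d ρ z 0)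
    {a : G → (X ⟶ X)} {γ : Φ → ℕ}
    (hX : IsCurveWithAction C X a hρ.pos ρ γ z) (hS : IsDominatedBySymmetricQuotient C a S) :
    VProp C S (∑ V, γ V * (γ V - 1) / 2) := by
  classical
  obtain ⟨hd, h0, h1, e, he, he1, hinv, hk, hzX⟩ := hX
  obtain ⟨hSd, b, N, hb, hN, hbi, hbs, hdom⟩ := hS
  refine ⟨hSd, fun n hn α hα W s => ?_⟩
  have hdXX : (X.prod X).dim = 2 := by rw [dim_prod, hd]
  let β : Fin n → C.A (X.prod X) := fun j => C.act (tp C b) (α j)
  have hβK : ∀ j, InAlbaneseKernel C (β j) := fun j => by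
    refine albKer_act ?_ (by rw [hSd, hdXX]) (hα j)
    rw [hSd]
    exact tp_mem C hb
  have hfx := fun j => fixed hd hd he he (hβK j)
  have hβi : ∀ j g, C.pull (prodMap (a g) (a g)) (β j) = β j := fun j g =>
    act_tp_inv (hbi g) (α j)
  have hβs : ∀ j, tp C (β j) = β j := fun j => act_tp_inv hbs (α j)
  have hm := fun j => modified (e' := e) hρ hd h0 h1 he he1 hinv (hfx j).2.1 (hfx j).2.2 (hβi j)
  have hz0 : groupCorr C a e (0 : G → F) = 0 := by
    rw [groupCorr_eq]
    exact Finset.sum_eq_zero fun g _ => by rw [Pi.zero_apply, zero_smul]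
  refine det_dominated (b := b) hN
    (β := fun j => C.comp (groupCorr C a e (eps hρ)) (β j)) (fun j => ?_) (fun W t => ?_) s
  · rw [← hdom _ (hα j)]
    exact act_modified hρ hz h0 h1 hinv h0 h1 hzX hz0 hbi (hfx j).2.1 (hfx j).2.2 (hβi j)
  · refine det_types_sym γ (by simpa only [Nat.choose_two_right] using hn)
      (oddSym hρ hd h0 h1 he he1 hinv hk)
      (fun j => ?_) (fun j => (hm j).2.2)
      (fun V j => by rw [(hm j).1, (hm j).2.1]) (fun j => ?_) t
    · have h2 := comp_mem C (e := 0) (e' := X.dim) (Γ := groupCorr C a e (eps hρ)) (Δ := β j)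
        (by rw [add_zero]; exact groupCorr_mem hd he _) (by
          have e2 : (X.dim : ℤ) + X.dim = 2 := by rw [hd]; norm_num
          rw [e2]
          exact (hfx j).1)
      rwa [zero_add] at h2
    · rw [tp_comp C (ch_comm C), hβs, groupCorr_tp h0 h1 hinv, groupCorr_both h0 h1 hinv
        (hfx j).2.1 (hfx j).2.2 (hβi j)]
      intro g
      simp only [eps, coeff_inv hρ]

end types

theorem vprop_sum [CharZero F] {m : ℕ} (T : Fin m → 𝒱.Obj) (N : Fin m → ℕ)
    (hT : ∀ i, VProp C (T i) (N i)) (S : 𝒱.Obj) (hS : S.dim = 2)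
    (c : (i : Fin m) → C.A (S.prod (T i))) (b : (i : Fin m) → C.A ((T i).prod S))
    (hc : ∀ i, C.Deg 2 (c i)) (q : F) (hq : q ≠ 0)
    (h : ∀ α : C.A S, InAlbaneseKernel C α → ∑ i, C.act (b i) (C.act (c i) α) = q • α) :
    VProp C S (∑ i, N i) := by
  classical
  refine ⟨hS, fun n hn α hα W s => ?_⟩
  let := ratAlg C W
  have h1 := det_of_types N hn (fun i => Matrix.of fun r j =>
    C.pull (s r) (C.act (b i) (C.act (c i) (α j)))) fun i J hJ r => by
      let e : J ≃ Fin J.card := J.equivFin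
      rw [← Matrix.det_reindex_self e]
      have h3 := det_trans (W := W) (b i) (fun j : Fin J.card => C.act (c i) (α (e.symm j)))
        (fun W t => (hT i).2 J.card hJ _ (fun j => albKer_act (by rw [hS]; exact hc i)
          (by rw [hS, (hT i).1]) (hα _)) W t) (fun j => s (r (e.symm j)))
      exact h3
  have h4 : (Matrix.of fun r j => ∑ i, (Matrix.of fun r j =>
      C.pull (s r) (C.act (b i) (C.act (c i) (α j))) : Matrix (Fin n) (Fin n) (C.A W)) r j) =
      q • (Matrix.of fun r j => C.pull (s r) (α j)) := by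
    funext r j
    rw [Matrix.smul_apply, Matrix.of_apply, Matrix.of_apply, ← map_smul, ← h _ (hα j), map_sum]
    rfl
  rw [h4, ← algebraMap_smul (C.A W) q, Matrix.det_smul, ← map_pow, ← Algebra.smul_def] at h1
  exact (smul_eq_zero.1 h1).resolve_left (pow_ne_zero _ hq)

theorem main [CharZero F] {N : ℕ} (h : Generated C S N) : VProp C S N := by
  induction h with
  | quotient hρ hz hX hY hS => exact vprop_quotient hρ hz hX hY hS
  | symmetric hρ hz hX hS => exact vprop_symmetric hρ hz hX hS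
  | sum T N hT S hS c b hc hb q hq h ih => exact vprop_sum T N ih S hS c b hc q hq h

end Pool.Agent.H802Voi
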