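import Pool.Agent.H802Voi.Haf

/-!
# Symmetrizations of zero-cycles
-/

open CategoryTheory AlgebraicGeometry

universe u v w

namespace Pool.Agent.H802Voi

open Pool.Agent.H914 Pool.Agent.H914.VarClass Pool.Agent.H914.VarClass.Obj Pool.Agent.W492.BB
  Pool.Agent.W550.Corr Pool.Agent.TH133

variable {k : Type u} [Field k] {𝒱 : VarClass k} {F : Type w} [Field F]

variable {C : TheoryData.{u, v, w} 𝒱 F} [hC : IsChowOver C] {X Y Z W V T : 𝒱.Obj}

section comb

variable {m : ℕ}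

/-- The partner of a point in the matching given by `σ`. -/
def prt (σ : Equiv.Perm (Fin m ⊕ Fin m)) : Equiv.Perm (Fin m ⊕ Fin m) :=
  σ * (Equiv.sumComm (Fin m) (Fin m)) * σ⁻¹

/-- The index of the pair of a point. -/
def idx (σ : Equiv.Perm (Fin m ⊕ Fin m)) (i : Fin m ⊕ Fin m) : Fin m := Sum.elim id id (σ⁻¹ i)

lemma app_inv (σ : Equiv.Perm (Fin m ⊕ Fin m)) (i : Fin m ⊕ Fin m) : σ (σ⁻¹ i) = i :=
  σ.apply_symm_apply i

lemma prt_ne (σ : Equiv.Perm (Fin m ⊕ Fin m)) (i : Fin m ⊕ Fin m) : prt σ i ≠ i := by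
  intro h
  have h1 : Equiv.sumComm (Fin m) (Fin m) (σ⁻¹ i) = σ⁻¹ i := by
    apply σ.injective
    rw [app_inv]
    exact h
  rcases hs : σ⁻¹ i with a | a <;> rw [hs] at h1 <;> simp at h1

lemma idx_spec (σ : Equiv.Perm (Fin m ⊕ Fin m)) (i : Fin m ⊕ Fin m) :
    (σ (Sum.inl (idx σ i)) = i ∧ σ (Sum.inr (idx σ i)) = prt σ i) ∨
      (σ (Sum.inr (idx σ i)) = i ∧ σ (Sum.inl (idx σ i)) = prt σ i) := by
  rcases hs : σ⁻¹ i with a | a
  · left
    have h1 : idx σ i = a := by rw [idx, hs]; rfl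
    have h2 : σ (Sum.inl a) = i := by rw [← hs, app_inv]
    refine ⟨by rw [h1, h2], ?_⟩
    rw [h1]
    change _ = σ (Equiv.sumComm (Fin m) (Fin m) (σ⁻¹ i))
    rw [hs]
    rfl
  · right
    have h1 : idx σ i = a := by rw [idx, hs]; rfl
    have h2 : σ (Sum.inr a) = i := by rw [← hs, app_inv]
    refine ⟨by rw [h1, h2], ?_⟩
    rw [h1]
    change _ = σ (Equiv.sumComm (Fin m) (Fin m) (σ⁻¹ i))
    rw [hs]
    rfl

lemma idx_eq (σ : Equiv.Perm (Fin m ⊕ Fin m)) {i i' : Fin m ⊕ Fin m} (h : idx σ i = idx σ i')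
    (hne : i ≠ i') : prt σ i = i' := by
  rcases idx_spec σ i with ⟨h1, h2⟩ | ⟨h1, h2⟩ <;>
    rcases idx_spec σ i' with ⟨h3, h4⟩ | ⟨h3, h4⟩ <;> rw [h] at h1 h2
  · exact absurd (h1.symm.trans h3) hne
  · exact h2.symm.trans h3
  · exact h2.symm.trans h3
  · exact absurd (h1.symm.trans h3) hne

/-- The matching `σ` matches the points of the two kinds. -/
def Good (σ : Equiv.Perm (Fin m ⊕ Fin m)) : Prop :=
  ∃ ρ : Equiv.Perm (Fin m), ∀ b, prt σ (Sum.inr b) = Sum.inl (ρ b)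

lemma good_or (σ : Equiv.Perm (Fin m ⊕ Fin m)) :
    Good σ ∨ ∃ b b' : Fin m, b ≠ b' ∧ prt σ (Sum.inr b) = Sum.inr b' := by
  by_cases h : ∃ b b' : Fin m, prt σ (Sum.inr b) = Sum.inr b'
  · right
    obtain ⟨b, b', h⟩ := h
    refine ⟨b, b', ?_, h⟩
    rintro rfl
    exact prt_ne σ _ h
  · left
    push Not at h
    have h1 : ∀ b, ∃ a, prt σ (Sum.inr b) = Sum.inl a := by
      intro b
      rcases hs : prt σ (Sum.inr b) with a | a
      · exact ⟨a, rfl⟩
      · exact absurd hs (h b a)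
    choose r hr using h1
    have hinj : Function.Injective r := by
      intro b b' hb
      have h2 : prt σ (Sum.inr b) = prt σ (Sum.inr b') := by rw [hr, hr, hb]
      exact Sum.inr_injective ((prt σ).injective h2)
    exact ⟨Equiv.ofBijective r (Finite.injective_iff_bijective.1 hinj), hr⟩

lemma good_one : Good (1 : Equiv.Perm (Fin m ⊕ Fin m)) := ⟨1, fun _ => rfl⟩

end comb

include hC

/-- The factor of the pair of `i`. -/
lemma factor {m : ℕ} {p : C.A (X.prod X)} (hs : tp C p = p) (z : Fin m ⊕ Fin m → (W ⟶ X))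
    (σ : Equiv.Perm (Fin m ⊕ Fin m)) (i : Fin m ⊕ Fin m) :
    vl C p (z (σ (Sum.inl (idx σ i)))) (z (σ (Sum.inr (idx σ i)))) =
      vl C p (z i) (z (prt σ i)) := by
  rcases idx_spec σ i with ⟨h1, h2⟩ | ⟨h1, h2⟩
  · rw [h1, h2]
  · rw [h1, h2, vl_symm hs]

/-- A product of too many factors. -/
lemma vanish {p : C.A (X.prod X)} (hp : p ∈ C.gr (X.prod X) X.dim) (hd : 0 < X.dim)
    {a b : C.A (X.prod Y)} (ha : a ∈ C.gr (X.prod Y) ((X.dim : ℤ) + Y.dim))
    (hb : b ∈ C.gr (X.prod Y) ((X.dim : ℤ) + Y.dim)) (x x' : W ⟶ X) (y y' : W ⟶ Y) :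
    vl C p x x' * (vl C a x y * vl C b x' y') = 0 := by
  set g : W ⟶ (X.prod Y).prod (X.prod Y) := Obj.lift (Obj.lift x y) (Obj.lift x' y') with hg
  have h0 : vl C p (fst (X.prod Y) (X.prod Y) ≫ fst X Y) (snd (X.prod Y) (X.prod Y) ≫ fst X Y) *
      (C.pull (fst (X.prod Y) (X.prod Y)) a * C.pull (snd (X.prod Y) (X.prod Y)) b) = 0 := by
    apply hC.gr_top _ (X.dim + ((X.dim + Y.dim) + (X.dim + Y.dim)))
    · exact C.mul_mem (vl_mem hp _ _) (C.mul_mem (C.pull_mem _ ha) (C.pull_mem _ hb))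
    · rw [dim_prod, dim_prod]
      push_cast
      have : (0 : ℤ) < X.dim := by exact_mod_cast hd
      linarith
  have h1 := congrArg (C.pull g) h0
  rw [map_zero, map_mul, map_mul, pull_vl, ← C.pull_comp, ← C.pull_comp] at h1
  have e1 : g ≫ fst (X.prod Y) (X.prod Y) = Obj.lift x y := by rw [hg, lift_fst]
  have e2 : g ≫ snd (X.prod Y) (X.prod Y) = Obj.lift x' y' := by rw [hg, lift_snd]
  have e3 : g ≫ fst (X.prod Y) (X.prod Y) ≫ fst X Y = x := by
    rw [← Category.assoc, e1, lift_fst]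
  have e4 : g ≫ snd (X.prod Y) (X.prod Y) ≫ fst X Y = x' := by
    rw [← Category.assoc, e2, lift_fst]
  rw [e1, e2, e3, e4] at h1
  exact h1

/-- The symmetrization in the first factors of a product of zero-cycles which come from a motive
with vanishing permanents is zero. -/
theorem rel [CharZero F] {m : ℕ} {p : C.A (X.prod X)} (hp : C.comp p p = p) (hs : tp C p = p)
    (hpd : p ∈ C.gr (X.prod X) X.dim) (hd : 0 < X.dim) (h : PermZero C p (Fin m ⊕ Fin m))
    {α : Fin m → C.A (X.prod Y)} (hα : ∀ j, α j ∈ C.gr (X.prod Y) ((X.dim : ℤ) + Y.dim))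
    (hfix : ∀ j, C.comp p (α j) = α j) (x : Fin m → (W ⟶ X)) (y : Fin m → (W ⟶ Y)) :
    ∑ ρ : Equiv.Perm (Fin m), ∏ j, vl C (α j) (x (ρ j)) (y j) = 0 := by
  classical
  obtain ⟨P, f, t, hP⟩ := exists_fub (C := C) W X m
  -- the terms for given `x`
  let A : C.A P := ∏ j, vl C (α j) (t j) (f ≫ y j)
  let z : (Fin m → (W ⟶ X)) → Fin m ⊕ Fin m → (P ⟶ X) := fun x => Sum.elim (fun j => f ≫ x j) t
  let term : (Fin m → (W ⟶ X)) → Equiv.Perm (Fin m ⊕ Fin m) → C.A W := fun x σ =>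
    C.push f ((∏ j : Fin m, vl C p (z x (σ (Sum.inl j))) (z x (σ (Sum.inr j)))) * A)
  have hsum : ∀ x, ∑ σ, term x σ = 0 := by
    intro x
    have h1 := haf hp hs h (z x)
    simp only [term]
    rw [← map_sum, ← Finset.sum_mul, h1, zero_mul, map_zero]
  have hbad : ∀ (x) (σ : Equiv.Perm (Fin m ⊕ Fin m)), ¬ Good σ → term x σ = 0 := by
    intro x σ hσ
    rcases good_or σ with h1 | ⟨b, b', hbb, h1⟩
    · exact absurd h1 hσ
    have h2 := factor hs (z x) σ (Sum.inr b)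
    rw [h1] at h2
    have h3 : (∏ j : Fin m, vl C p (z x (σ (Sum.inl j))) (z x (σ (Sum.inr j)))) * A = 0 := by
      have hb' : b' ∈ Finset.univ.erase b := Finset.mem_erase.2 ⟨hbb.symm, Finset.mem_univ _⟩
      simp only [A]
      rw [← Finset.mul_prod_erase Finset.univ _ (Finset.mem_univ (idx σ (Sum.inr b))), h2,
        ← Finset.mul_prod_erase Finset.univ (fun j => vl C (α j) (t j) (f ≫ y j))
          (Finset.mem_univ b), ← Finset.mul_prod_erase _ _ hb']
      have h4 := vanish hpd hd (hα b) (hα b') (t b) (t b') (f ≫ y b) (f ≫ y b')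
      have e1 : z x (Sum.inr b) = t b := rfl
      have e2 : z x (Sum.inr b') = t b' := rfl
      rw [e1, e2]
      linear_combination h4 * ((∏ j ∈ Finset.univ.erase (idx σ (Sum.inr b)),
        vl C p (z x (σ (Sum.inl j))) (z x (σ (Sum.inr j)))) *
        ∏ j ∈ (Finset.univ.erase b).erase b', vl C (α j) (t j) (f ≫ y j))
    simp only [term]
    rw [h3, map_zero]
  have hgood : ∀ (x) (σ : Equiv.Perm (Fin m ⊕ Fin m)) (ρ : Equiv.Perm (Fin m)),
      (∀ b, prt σ (Sum.inr b) = Sum.inl (ρ b)) → term x σ = ∏ j, vl C (α j) (x (ρ j)) (y j) := by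
    intro x σ ρ hρ
    have hinj : Function.Injective fun b : Fin m => idx σ (Sum.inr b) := by
      intro b b' hb
      by_contra hne
      have h1 := idx_eq σ hb (fun h => hne (Sum.inr_injective h))
      rw [hρ] at h1
      cases h1
    let e : Fin m ≃ Fin m := Equiv.ofBijective _ (Finite.injective_iff_bijective.1 hinj)
    have h1 : (∏ j : Fin m, vl C p (z x (σ (Sum.inl j))) (z x (σ (Sum.inr j)))) =
        ∏ b, vl C p (t b) (f ≫ x (ρ b)) := by
      rw [← Equiv.prod_comp e]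
      refine Finset.prod_congr rfl fun b _ => ?_
      have h2 := factor hs (z x) σ (Sum.inr b)
      rw [hρ] at h2
      exact h2
    simp only [term, A]
    rw [h1, ← Finset.prod_mul_distrib]
    have h2 : ∀ b : Fin m, vl C p (t b) (f ≫ x (ρ b)) * vl C (α b) (t b) (f ≫ y b) =
        vl C (vl C p (snd W X) (fst W X ≫ x (ρ b)) * vl C (α b) (snd W X) (fst W X ≫ y b)) f
          (t b) := by
      intro b
      conv_rhs => rw [vl, map_mul, pull_vl, pull_vl, lift_snd, ← Category.assoc, lift_fst,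
        ← Category.assoc, lift_fst]
    rw [Finset.prod_congr rfl fun b _ => h2 b, hP]
    refine Finset.prod_congr rfl fun b _ => ?_
    rw [vl_symm hs, ← vl_comp, hfix]
  have hterm : ∀ (x) (σ : Equiv.Perm (Fin m ⊕ Fin m)), term x σ = if hg : Good σ then
      ∏ j, vl C (α j) (x (hg.choose j)) (y j) else 0 := by
    intro x σ
    split_ifs with hg
    · exact hgood x σ _ hg.choose_spec
    · exact hbad x σ hg
  -- the sum over all permutations of `x`
  have h1 : ∑ g : Equiv.Perm (Fin m), ∑ σ : Equiv.Perm (Fin m ⊕ Fin m),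
      term (fun j => x (g j)) σ = 0 := Finset.sum_eq_zero fun g _ => hsum _
  rw [Finset.sum_comm] at h1
  have h2 : ∀ σ : Equiv.Perm (Fin m ⊕ Fin m), ∑ g : Equiv.Perm (Fin m),
      term (fun j => x (g j)) σ = (if Good σ then (1 : F) else 0) •
        ∑ ρ : Equiv.Perm (Fin m), ∏ j, vl C (α j) (x (ρ j)) (y j) := by
    intro σ
    split_ifs with hg
    · rw [one_smul]
      have h3 : ∀ g : Equiv.Perm (Fin m), term (fun j => x (g j)) σ =
          ∏ j, vl C (α j) (x ((g * hg.choose) j)) (y j) := by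
        intro g
        rw [hterm, dif_pos hg]
        rfl
      rw [Finset.sum_congr rfl fun g _ => h3 g]
      exact Equiv.sum_comp (Equiv.mulRight hg.choose)
        (fun ρ : Equiv.Perm (Fin m) => ∏ j, vl C (α j) (x (ρ j)) (y j))
    · rw [zero_smul]
      refine Finset.sum_eq_zero fun g _ => ?_
      rw [hterm, dif_neg hg]
  rw [Finset.sum_congr rfl fun σ _ => h2 σ, ← Finset.sum_smul] at h1
  have h3 : (∑ σ : Equiv.Perm (Fin m ⊕ Fin m), (if Good σ then (1 : F) else 0)) ≠ 0 := by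
    rw [Finset.sum_boole, Nat.cast_ne_zero, Finset.card_ne_zero]
    exact ⟨1, Finset.mem_filter.2 ⟨Finset.mem_univ _, good_one⟩⟩
  exact (smul_eq_zero.1 h1).resolve_left h3

end Pool.Agent.H802Voi
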